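import Pool.Agent.Work.MP_02e829_rl.Coord

/-!
# Pointwise algebra for rectilinear trajectories
-/

open Set Filter Topology
open scoped ContDiff

set_option autoImplicit false

namespace Pool.RL

/-- the space -/
abbrev E3 := EuclideanSpace ℝ (Fin 3)

lemma poly4 {W p0 p1 p2 p3 p4 : ℝ} (hW : 0 < W)
    (h : ∀ w ∈ Icc 0 W, p0 + p1 * w + p2 * w ^ 2 + p3 * w ^ 3 + p4 * w ^ 4 = 0) : p4 = 0 := by
  have h0 := h 0 ⟨le_rfl, hW.le⟩
  have h1 := h (W / 4) ⟨by linarith, by linarith⟩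
  have h2 := h (W / 2) ⟨by linarith, by linarith⟩
  have h3 := h (3 * W / 4) ⟨by linarith, by linarith⟩
  have h4 := h W ⟨hW.le, le_rfl⟩
  have h5 : p4 * W ^ 4 = 0 := by
    linear_combination (32 / 3) * (h0 - 4 * h1 + 6 * h2 - 4 * h3 + h4)
  exact (mul_eq_zero.1 h5).resolve_right (by positivity)

lemma poly2 {W p0 p1 p2 : ℝ} (hW : 0 < W)
    (h : ∀ w ∈ Icc 0 W, p0 + p1 * w + p2 * w ^ 2 = 0) : p2 = 0 := by
  have h0 := h 0 ⟨le_rfl, hW.le⟩
  have h2 := h (W / 2) ⟨by linarith, by linarith⟩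
  have h4 := h W ⟨hW.le, le_rfl⟩
  have h5 : p2 * W ^ 2 = 0 := by
    linear_combination 2 * (h0 - 2 * h2 + h4)
  exact (mul_eq_zero.1 h5).resolve_right (by positivity)

/-- the isometry equation at a point -/
def IsoEq (F D : E2 →L[ℝ] E3) (ξ : E3) (w : ℝ) (a : E2 →L[ℝ] ℝ) : Prop :=
  ∀ v v', inner ℝ (F v + a v • ξ + w • D v) (F v' + a v' • ξ + w • D v') = inner ℝ (F v) (F v')

lemma IsoEq.expand {F D : E2 →L[ℝ] E3} {ξ : E3} {w : ℝ} {a : E2 →L[ℝ] ℝ}
    (h : IsoEq F D ξ w a) (hD : ∀ v, inner ℝ (D v) ξ = 0) (hξ : inner ℝ ξ ξ = 1) (v v' : E2) :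
    (a v + inner ℝ (F v) ξ) * (a v' + inner ℝ (F v') ξ) =
      inner ℝ (F v) ξ * inner ℝ (F v') ξ - w * (inner ℝ (F v) (D v') + inner ℝ (F v') (D v)) -
        w ^ 2 * inner ℝ (D v) (D v') := by
  have h1 := h v v'
  simp only [inner_add_left, inner_add_right, real_inner_smul_left, real_inner_smul_right] at h1
  have e1 : inner ℝ ξ (D v') = 0 := by rw [real_inner_comm]; exact hD v'
  have e2 : inner ℝ ξ (F v') = inner ℝ (F v') ξ := real_inner_comm _ _
  have e3 : inner ℝ (D v) (F v') = inner ℝ (F v') (D v) := real_inner_comm _ _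
  rw [hξ, hD v, e1, e2, e3] at h1
  linear_combination h1

lemma alg {W : ℝ} (hW : 0 < W) {F D : E2 →L[ℝ] E3} {ξ : E3}
    (hDξ : ∀ v, inner ℝ (D v) ξ = 0) (hξ : inner ℝ ξ ξ = 1)
    (h : ∀ w ∈ Icc 0 W, ∃ a : E2 →L[ℝ] ℝ, IsoEq F D ξ w a) (hD : D ≠ 0) :
    ∃ e : E2, e ≠ 0 ∧ D e = 0 ∧ inner ℝ (F e) ξ = 0 ∧ ∀ v, inner ℝ (F e) (D v) = 0 := by
  -- the coefficient of `w ^ 4`
  have hC : ∀ v v', inner ℝ (D v) (D v) * inner ℝ (D v') (D v') = inner ℝ (D v) (D v') ^ 2 := by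
    intro v v'
    have h4 := poly4 (p0 := 0)
      (p1 := -(inner ℝ (F v) ξ ^ 2 * (2 * inner ℝ (F v') (D v'))) -
        inner ℝ (F v') ξ ^ 2 * (2 * inner ℝ (F v) (D v)) +
        2 * (inner ℝ (F v) ξ * inner ℝ (F v') ξ) *
          (inner ℝ (F v) (D v') + inner ℝ (F v') (D v)))
      (p2 := -(inner ℝ (F v) ξ ^ 2 * inner ℝ (D v') (D v')) -
        inner ℝ (F v') ξ ^ 2 * inner ℝ (D v) (D v) +
        (2 * inner ℝ (F v) (D v)) * (2 * inner ℝ (F v') (D v')) +
        2 * (inner ℝ (F v) ξ * inner ℝ (F v') ξ) * inner ℝ (D v) (D v') -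
        (inner ℝ (F v) (D v') + inner ℝ (F v') (D v)) ^ 2)
      (p3 := (2 * inner ℝ (F v) (D v)) * inner ℝ (D v') (D v') +
        (2 * inner ℝ (F v') (D v')) * inner ℝ (D v) (D v) -
        2 * (inner ℝ (F v) (D v') + inner ℝ (F v') (D v)) * inner ℝ (D v) (D v'))
      (p4 := inner ℝ (D v) (D v) * inner ℝ (D v') (D v') - inner ℝ (D v) (D v') ^ 2) hW (by
        intro w hw
        obtain ⟨a, ha⟩ := h w hw
        have e1 := ha.expand hDξ hξ v v
        have e2 := ha.expand hDξ hξ v' v'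
        have e3 := ha.expand hDξ hξ v v'
        have e4 : ((a v + inner ℝ (F v) ξ) * (a v + inner ℝ (F v) ξ)) *
            ((a v' + inner ℝ (F v') ξ) * (a v' + inner ℝ (F v') ξ)) =
            ((a v + inner ℝ (F v) ξ) * (a v' + inner ℝ (F v') ξ)) ^ 2 := by ring
        rw [e1, e2, e3] at e4
        linear_combination e4)
    linarith
  -- the kernel of `D`
  obtain ⟨e, he0, hDe⟩ : ∃ e : E2, e ≠ 0 ∧ D e = 0 := by
    by_cases h0 : D (ee 0) = 0
    · refine ⟨ee 0, ?_, h0⟩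
      intro h
      have := congrArg (fun z : E2 => z 0) h
      simp [ee] at this
    · refine ⟨inner ℝ (D (ee 0)) (D (ee 1)) • ee 0 - inner ℝ (D (ee 0)) (D (ee 0)) • ee 1, ?_, ?_⟩
      · intro h
        have := congrArg (fun z : E2 => z 1) h
        simp [ee] at this
        exact h0 this
      · rw [← inner_self_eq_zero (𝕜 := ℝ)]
        have h1 := hC (ee 0) (ee 1)
        simp only [map_sub, map_smul, inner_sub_left, inner_sub_right, real_inner_smul_left,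
          real_inner_smul_right]
        rw [real_inner_comm (D (ee 0)) (D (ee 1))]
        linear_combination (inner ℝ (D (ee 0)) (D (ee 0))) * h1
  -- the coefficient of `w ^ 2`
  have h2 : ∀ v, inner ℝ (F e) (D v) = 0 ∧ inner ℝ (F e) ξ ^ 2 * inner ℝ (D v) (D v) = 0 := by
    intro v
    have h4 := poly2 (p0 := 0)
      (p1 := -(inner ℝ (F e) ξ ^ 2 * (2 * inner ℝ (F v) (D v))) +
        2 * (inner ℝ (F e) ξ * inner ℝ (F v) ξ) * inner ℝ (F e) (D v))
      (p2 := -(inner ℝ (F e) ξ ^ 2 * inner ℝ (D v) (D v)) - inner ℝ (F e) (D v) ^ 2) hW (by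
        intro w hw
        obtain ⟨a, ha⟩ := h w hw
        have e1 := ha.expand hDξ hξ e e
        have e2 := ha.expand hDξ hξ v v
        have e3 := ha.expand hDξ hξ e v
        have e4 : ((a e + inner ℝ (F e) ξ) * (a e + inner ℝ (F e) ξ)) *
            ((a v + inner ℝ (F v) ξ) * (a v + inner ℝ (F v) ξ)) =
            ((a e + inner ℝ (F e) ξ) * (a v + inner ℝ (F v) ξ)) ^ 2 := by ring
        rw [e1, e2, e3] at e4
        rw [hDe] at e4
        simp only [inner_zero_left, inner_zero_right] at e4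
        linear_combination e4)
    have h5 : 0 ≤ inner ℝ (F e) ξ ^ 2 * inner ℝ (D v) (D v) :=
      mul_nonneg (sq_nonneg _) real_inner_self_nonneg
    have h6 : 0 ≤ inner ℝ (F e) (D v) ^ 2 := sq_nonneg _
    constructor
    · have h7 : inner ℝ (F e) (D v) ^ 2 = 0 := by linarith
      exact pow_eq_zero_iff two_ne_zero |>.1 h7
    · linarith
  refine ⟨e, he0, hDe, ?_, fun v => (h2 v).1⟩
  by_contra hne
  apply hD
  ext1 v
  have h3 := (h2 v).2
  rcases mul_eq_zero.1 h3 with h4 | h4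
  · exact absurd (pow_eq_zero_iff two_ne_zero |>.1 h4) hne
  · exact inner_self_eq_zero.1 h4

/-- the functions are constant along `e` -/
lemma IsoEq.apply_eq_zero {F D : E2 →L[ℝ] E3} {ξ : E3} {w : ℝ} {a : E2 →L[ℝ] ℝ}
    (h : IsoEq F D ξ w a) (hξ : inner ℝ ξ ξ = 1) {e : E2} (h1 : D e = 0)
    (h2 : inner ℝ (F e) ξ = 0) : a e = 0 := by
  have h3 := h e e
  rw [h1] at h3
  simp only [smul_zero, add_zero, inner_add_left, inner_add_right, real_inner_smul_left,
    real_inner_smul_right] at h3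
  have e2 : inner ℝ ξ (F e) = 0 := by rw [real_inner_comm]; exact h2
  rw [hξ, h2, e2] at h3
  have h4 : a e ^ 2 = 0 := by linarith
  exact pow_eq_zero_iff two_ne_zero |>.1 h4

/-- one dimensional kernels -/
lemma ker_line {l : E2 →L[ℝ] ℝ} (hl : l ≠ 0) {e v : E2} (he : e ≠ 0) (h1 : l e = 0)
    (h2 : l v = 0) : ∃ c : ℝ, v = c • e := by
  have hl' : 0 < l (ee 0) ^ 2 + l (ee 1) ^ 2 := by
    by_contra hn
    have h3 : l (ee 0) = 0 := by nlinarith [sq_nonneg (l (ee 0)), sq_nonneg (l (ee 1))]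
    have h4 : l (ee 1) = 0 := by nlinarith [sq_nonneg (l (ee 0)), sq_nonneg (l (ee 1))]
    apply hl
    ext v
    rw [clm_eq, h3, h4]
    simp
  have he' : 0 < e 0 ^ 2 + e 1 ^ 2 := by
    by_contra hn
    have h3 : e 0 = 0 := by nlinarith [sq_nonneg (e 0), sq_nonneg (e 1)]
    have h4 : e 1 = 0 := by nlinarith [sq_nonneg (e 0), sq_nonneg (e 1)]
    apply he
    ext i
    fin_cases i
    · simpa using h3
    · simpa using h4
  rw [clm_eq] at h1 h2
  have h5 : (v 0 * e 1 - v 1 * e 0) * (l (ee 0) ^ 2 + l (ee 1) ^ 2) = 0 := by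
    have e1 : (v 0 * e 1 - v 1 * e 0) * l (ee 0) = 0 := by linear_combination e 1 * h2 - v 1 * h1
    have e2 : (v 0 * e 1 - v 1 * e 0) * l (ee 1) = 0 := by linear_combination v 0 * h1 - e 0 * h2
    linear_combination l (ee 0) * e1 + l (ee 1) * e2
  have h6 : v 0 * e 1 - v 1 * e 0 = 0 := (mul_eq_zero.1 h5).resolve_right hl'.ne'
  refine ⟨(v 0 * e 0 + v 1 * e 1) / (e 0 ^ 2 + e 1 ^ 2), ?_⟩
  ext i
  fin_cases i
  · simp only [Fin.zero_eta, Fin.isValue, PiLp.smul_apply, smul_eq_mul]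
    rw [div_mul_eq_mul_div, eq_div_iff he'.ne']
    linear_combination e 1 * h6
  · simp only [Fin.mk_one, Fin.isValue, PiLp.smul_apply, smul_eq_mul]
    rw [div_mul_eq_mul_div, eq_div_iff he'.ne']
    linear_combination -(e 0) * h6

/-- if `D = 0` then the last form vanishes -/
lemma alg0 {t0 : ℝ} (ht0 : 0 ≤ t0) {F : E2 →L[ℝ] E3} {ξ : E3} {w : ℝ → ℝ}
    {a : ℝ → E2 →L[ℝ] ℝ} (hξ : inner ℝ ξ ξ = 1)
    (h : ∀ t ∈ Icc 0 t0, IsoEq F 0 ξ (w t) (a t)) (h0 : a 0 = 0)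
    (hc : ∀ v, ContinuousOn (fun t => a t v) (Icc 0 t0)) : a t0 = 0 := by
  ext v
  have h1 : ∀ t ∈ Icc 0 t0, a t v * (a t v + 2 * inner ℝ (F v) ξ) = 0 := by
    intro t ht
    have h2 := (h t ht).expand (fun v => by simp) hξ v v
    simp only [zero_apply, inner_zero_right] at h2
    linear_combination h2
  have h2 : a 0 v = 0 := by rw [h0]; rfl
  by_contra hne
  have hne' : a t0 v ≠ 0 := hne
  have h3 : a t0 v = -(2 * inner ℝ (F v) ξ) := by
    rcases mul_eq_zero.1 (h1 t0 ⟨ht0, le_rfl⟩) with h4 | h4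
    · exact absurd h4 hne'
    · linarith
  have h4 : -(inner ℝ (F v) ξ) ∈ (fun t => a t v) '' Icc 0 t0 := by
    rcases le_total 0 (a t0 v) with h5 | h5
    · refine intermediate_value_Icc ht0 (hc v) ?_
      rw [h2]
      rw [h3] at h5
      exact ⟨by linarith, by linarith⟩
    · refine intermediate_value_Icc' ht0 (hc v) ?_
      rw [h2]
      rw [h3] at h5
      exact ⟨by linarith, by linarith⟩
  obtain ⟨t, ht, h5⟩ := h4
  have h6 := h1 t ht
  simp only at h5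
  rw [h5] at h6
  have h7 : inner ℝ (F v) ξ ^ 2 = 0 := by linarith
  have h8 : inner ℝ (F v) ξ = 0 := pow_eq_zero_iff two_ne_zero |>.1 h7
  apply hne'
  rw [h3, h8]
  simp

end Pool.RL
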