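import Mathlib

/-!
# Coordinates adapted to a function of two variables
-/

open Set Filter Topology MeasureTheory
open scoped ContDiff ENNReal NNReal

set_option autoImplicit false

namespace Pool.RL

/-- the plane -/
abbrev E2 := EuclideanSpace ℝ (Fin 2)

/-- the basis vectors -/
noncomputable def ee (i : Fin 2) : E2 := EuclideanSpace.single i 1

lemma decomp (v : E2) : v = v 0 • ee 0 + v 1 • ee 1 := by
  ext i
  fin_cases i <;> simp [ee]

lemma clm_eq (l : E2 →L[ℝ] ℝ) (v : E2) : l v = v 0 * l (ee 0) + v 1 * l (ee 1) := by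
  conv_lhs => rw [decomp v]
  simp

/-- the second coordinate -/
noncomputable def compl (l : E2 →L[ℝ] ℝ) : E2 →L[ℝ] ℝ :=
  (l (ee 0)) • (EuclideanSpace.proj 1 : E2 →L[ℝ] ℝ) - (l (ee 1)) • (EuclideanSpace.proj 0 : E2 →L[ℝ] ℝ)

lemma compl_apply (l : E2 →L[ℝ] ℝ) (v : E2) : compl l v = l (ee 0) * v 1 - l (ee 1) * v 0 := by
  simp [compl]

lemma pair_inj (l : E2 →L[ℝ] ℝ) (hl : l ≠ 0) (v : E2) (h1 : l v = 0) (h2 : compl l v = 0) :
    v = 0 := by
  rw [clm_eq] at h1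
  rw [compl_apply] at h2
  have h3 : 0 < l (ee 0) ^ 2 + l (ee 1) ^ 2 := by
    rcases eq_or_ne (l (ee 0)) 0 with h0 | h0
    · rcases eq_or_ne (l (ee 1)) 0 with h1' | h1'
      · exfalso
        apply hl
        ext v
        rw [clm_eq, h0, h1']
        simp
      · positivity
    · positivity
  have h4 : v 0 * (l (ee 0) ^ 2 + l (ee 1) ^ 2) = 0 := by
    have := congrArg (fun z => z * l (ee 0)) h1
    have := congrArg (fun z => z * l (ee 1)) h2
    simp only [zero_mul] at *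
    linarith
  have h5 : v 1 * (l (ee 0) ^ 2 + l (ee 1) ^ 2) = 0 := by
    have := congrArg (fun z => z * l (ee 1)) h1
    have := congrArg (fun z => z * l (ee 0)) h2
    simp only [zero_mul] at *
    linarith
  have h6 : v 0 = 0 := (mul_eq_zero.1 h4).resolve_right h3.ne'
  have h7 : v 1 = 0 := (mul_eq_zero.1 h5).resolve_right h3.ne'
  ext i
  fin_cases i
  · simpa using h6
  · simpa using h7

/-- the linear coordinates -/
noncomputable def pairEquiv (l : E2 →L[ℝ] ℝ) (hl : l ≠ 0) : E2 ≃L[ℝ] ℝ × ℝ :=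
  (LinearEquiv.ofBijective ((l.prod (compl l) : E2 →L[ℝ] ℝ × ℝ) : E2 →ₗ[ℝ] ℝ × ℝ) (by
    have hi : Function.Injective ((l.prod (compl l) : E2 →L[ℝ] ℝ × ℝ) : E2 →ₗ[ℝ] ℝ × ℝ) := by
      rw [← LinearMap.ker_eq_bot, LinearMap.ker_eq_bot']
      intro v hv
      have h1 := congrArg Prod.fst hv
      have h2 := congrArg Prod.snd hv
      exact pair_inj l hl v h1 h2
    refine ⟨hi, ?_⟩
    refine (LinearMap.injective_iff_surjective_of_finrank_eq_finrank ?_).1 hi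
    simp)).toContinuousLinearEquiv

lemma pairEquiv_coe (l : E2 →L[ℝ] ℝ) (hl : l ≠ 0) :
    ((pairEquiv l hl : E2 ≃L[ℝ] ℝ × ℝ) : E2 →L[ℝ] ℝ × ℝ) = l.prod (compl l) := by
  ext v <;> rfl

/-- **Adapted coordinates.** -/
theorem coord {n : WithTop ℕ∞} (hn : n ≠ 0) {w : E2 → ℝ} {x0 : E2} (hw : ContDiffAt ℝ n w x0)
    (hne : fderiv ℝ w x0 ≠ 0) :
    ∃ (τ : E2 →L[ℝ] ℝ) (Ψ : ℝ × ℝ → E2), Ψ (w x0, τ x0) = x0 ∧
      ContDiffAt ℝ n Ψ (w x0, τ x0) ∧
      (∀ᶠ q in 𝓝 (w x0, τ x0), w (Ψ q) = q.1 ∧ τ (Ψ q) = q.2) ∧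
      ∀ᶠ x in 𝓝 x0, Ψ (w x, τ x) = x := by
  set τ := compl (fderiv ℝ w x0) with hτ
  set Φ : E2 → ℝ × ℝ := fun x => (w x, τ x) with hΦ
  have hΦc : ContDiffAt ℝ n Φ x0 := hw.prodMk τ.contDiff.contDiffAt
  have hwd : DifferentiableAt ℝ w x0 := hw.differentiableAt hn
  have hΦd : HasFDerivAt Φ ((pairEquiv (fderiv ℝ w x0) hne : E2 ≃L[ℝ] ℝ × ℝ) : E2 →L[ℝ] ℝ × ℝ)
      x0 := by
    rw [pairEquiv_coe]
    exact hwd.hasFDerivAt.prodMk τ.hasFDerivAt
  refine ⟨τ, hΦc.localInverse hΦd hn, hΦc.localInverse_apply_image hΦd hn,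
    hΦc.to_localInverse hΦd hn, ?_, ?_⟩
  · have h1 := (hΦc.hasStrictFDerivAt' hΦd hn).eventually_right_inverse
    filter_upwards [h1] with q hq
    have h2 : Φ (hΦc.localInverse hΦd hn q) = q := hq
    exact ⟨congrArg Prod.fst h2, congrArg Prod.snd h2⟩
  · exact (hΦc.hasStrictFDerivAt' hΦd hn).eventually_left_inverse

end Pool.RL
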