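import Pool.Agent.Work.MP_02e829_rl.Coord

/-!
# Sard's theorem for functions of class `C²` of two variables
-/

open Set Filter Topology MeasureTheory
open scoped ContDiff ENNReal NNReal

set_option autoImplicit false

namespace Pool.RL

/-- critical points on a curve of class `C¹` -/
lemma sardA {u v : E2 → ℝ} {x0 : E2} (hu : ∀ᶠ x in 𝓝 x0, DifferentiableAt ℝ u x)
    (hv : ContDiffAt ℝ 1 v x0) (hne : fderiv ℝ v x0 ≠ 0) :
    ∃ V ∈ 𝓝 x0, volume (u '' {x ∈ V | v x = 0 ∧ fderiv ℝ u x = 0}) = 0 := by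
  by_cases h0 : v x0 = 0
  · obtain ⟨τ, Ψ, h1, h2, h3, h4⟩ := coord one_ne_zero hv hne
    rw [h0] at h1 h2 h3
    have hΨ : ∀ᶠ q in 𝓝 ((0 : ℝ), τ x0), DifferentiableAt ℝ Ψ q := by
      have := h2.eventually (by simp)
      filter_upwards [this] with q hq using hq.differentiableAt one_ne_zero
    have hu' : ∀ᶠ q in 𝓝 ((0 : ℝ), τ x0), DifferentiableAt ℝ u (Ψ q) := by
      have hc := h2.continuousAt
      rw [ContinuousAt, h1] at hc
      exact hc.eventually hu
    have hline : ContinuousAt (fun s : ℝ => ((0 : ℝ), s)) (τ x0) := by fun_prop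
    have e1 : ∀ᶠ s in 𝓝 (τ x0), DifferentiableAt ℝ Ψ ((0 : ℝ), s) ∧
        DifferentiableAt ℝ u (Ψ (0, s)) := hline.eventually (hΨ.and hu')
    set S : Set ℝ := {s | (DifferentiableAt ℝ Ψ ((0 : ℝ), s) ∧ DifferentiableAt ℝ u (Ψ (0, s))) ∧
      fderiv ℝ u (Ψ (0, s)) = 0} with hS
    set k : ℝ → ℝ := fun s => u (Ψ (0, s)) with hk
    have hk0 : ∀ s ∈ S, HasFDerivWithinAt k (0 : ℝ →L[ℝ] ℝ) S s := by
      rintro s ⟨⟨hs1, hs2⟩, hs3⟩
      have h5 := hs2.hasFDerivAt
      rw [hs3] at h5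
      have h6 : HasFDerivAt (fun s : ℝ => ((0 : ℝ), s))
          ((0 : ℝ →L[ℝ] ℝ).prod (ContinuousLinearMap.id ℝ ℝ)) s :=
        (hasFDerivAt_const (0 : ℝ) s).prodMk (hasFDerivAt_id s)
      have h7 := h5.comp s (hs1.hasFDerivAt.comp s h6)
      simp only [ContinuousLinearMap.zero_comp] at h7
      exact h7.hasFDerivWithinAt
    have hnull : volume (k '' S) = 0 :=
      addHaar_image_eq_zero_of_det_fderivWithin_eq_zero volume hk0 (fun s _ => by
        rw [ContinuousLinearMap.det]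
        simp)
    have hτ : ContinuousAt τ x0 := τ.continuous.continuousAt
    have e2 := hτ.eventually e1
    refine ⟨{x | Ψ (v x, τ x) = x ∧ DifferentiableAt ℝ Ψ ((0 : ℝ), τ x) ∧
      DifferentiableAt ℝ u (Ψ (0, τ x))}, ?_, ?_⟩
    · filter_upwards [h4, e2] with x hx hx2 using ⟨hx, hx2⟩
    · refine measure_mono_null ?_ hnull
      rintro _ ⟨x, ⟨⟨hx1, hx2, hx3⟩, hx4, hx5⟩, rfl⟩
      rw [hx4] at hx1
      refine ⟨τ x, ⟨⟨hx2, hx3⟩, by rw [hx1]; exact hx5⟩, ?_⟩
      change u (Ψ (0, τ x)) = u x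
      rw [hx1]
  · refine ⟨{x | v x ≠ 0}, hv.continuousAt.eventually_ne h0, ?_⟩
    have : {x | x ∈ {x | v x ≠ 0} ∧ v x = 0 ∧ fderiv ℝ u x = 0} = ∅ := by
      ext x
      simp only [mem_empty_iff_false, iff_false]
      rintro ⟨h1, h2, _⟩
      exact h1 h2
    rw [this]
    simp

/-- the estimate at flat critical points -/
lemma flat_est {u : E2 → ℝ} {x0 : E2} {r : ℝ}
    (hu : ∀ x ∈ Metric.closedBall x0 r, DifferentiableAt ℝ u x)
    (hg : ∀ x ∈ Metric.closedBall x0 r, DifferentiableAt ℝ (fderiv ℝ u) x)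
    (hh : ContinuousOn (fderiv ℝ (fderiv ℝ u)) (Metric.closedBall x0 r)) {ε : ℝ} (hε : 0 < ε) :
    ∃ δ > 0, ∀ x ∈ Metric.closedBall x0 r, fderiv ℝ u x = 0 → fderiv ℝ (fderiv ℝ u) x = 0 →
      ∀ y ∈ Metric.closedBall x0 r, dist y x < δ → |u y - u x| ≤ ε * dist y x ^ 2 := by
  have hK : IsCompact (Metric.closedBall x0 r) := isCompact_closedBall x0 r
  have huc := hK.uniformContinuousOn_of_continuous hh
  have huc' := (Metric.uniformContinuousOn_iff (α := E2) (β := E2 →L[ℝ] E2 →L[ℝ] ℝ)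
    (s := Metric.closedBall x0 r) (f := fderiv ℝ (fderiv ℝ u))).1 (by convert huc)
  obtain ⟨δ, hδ, h⟩ := huc' ε hε
  refine ⟨δ, hδ, fun x hx h1 h2 y hy hxy => ?_⟩
  -- the convex set
  set C : Set E2 := Metric.closedBall x0 r ∩ Metric.closedBall x (dist y x) with hC
  have hCc : Convex ℝ C := (convex_closedBall x0 r).inter (convex_closedBall x _)
  have hxC : x ∈ C := ⟨hx, Metric.mem_closedBall_self dist_nonneg⟩
  have hyC : y ∈ C := ⟨hy, Metric.mem_closedBall.2 le_rfl⟩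
  have hb2 : ∀ z ∈ C, ‖fderiv ℝ (fderiv ℝ u) z‖ ≤ ε := by
    intro z hz
    have h3 := h z hz.1 x hx (lt_of_le_of_lt hz.2 hxy)
    rw [h2] at h3
    have h4 : dist (fderiv ℝ (fderiv ℝ u) z) 0 = ‖fderiv ℝ (fderiv ℝ u) z‖ :=
      dist_zero_right (E := E2 →L[ℝ] E2 →L[ℝ] ℝ) _
    exact h4.symm.le.trans h3.le
  have hb1 : ∀ z ∈ C, ‖fderiv ℝ u z‖ ≤ ε * dist y x := by
    intro z hz
    have h3 := hCc.norm_image_sub_le_of_norm_fderiv_le (fun w hw => hg w hw.1) hb2 hxC hz
    rw [h1, sub_zero, ← dist_eq_norm] at h3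
    exact h3.trans (mul_le_mul_of_nonneg_left hz.2 hε.le)
  have h4 := hCc.norm_image_sub_le_of_norm_fderiv_le (fun w hw => hu w hw.1) hb1 hxC hyC
  rw [← dist_eq_norm y x, Real.norm_eq_abs] at h4
  refine h4.trans (le_of_eq (by ring))

/-- flat critical points -/
lemma sardB {u : E2 → ℝ} {x0 : E2} {r : ℝ}
    (hu : ∀ x ∈ Metric.closedBall x0 r, DifferentiableAt ℝ u x)
    (hg : ∀ x ∈ Metric.closedBall x0 r, DifferentiableAt ℝ (fderiv ℝ u) x)
    (hh : ContinuousOn (fderiv ℝ (fderiv ℝ u)) (Metric.closedBall x0 r)) :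
    volume (u '' {x ∈ Metric.closedBall x0 r | fderiv ℝ u x = 0 ∧
      fderiv ℝ (fderiv ℝ u) x = 0}) = 0 := by
  set K := Metric.closedBall x0 r with hKdef
  have hK : IsCompact K := isCompact_closedBall x0 r
  set B : Set E2 := {x ∈ K | fderiv ℝ u x = 0 ∧ fderiv ℝ (fderiv ℝ u) x = 0} with hB
  have hfin : (μH[2] : Measure E2) K < ⊤ := by
    have h1 : (μH[(Module.finrank ℝ E2 : ℝ)] : Measure E2) K < ⊤ := hK.measure_lt_top
    have h2 : (Module.finrank ℝ E2 : ℝ) = 2 := by simp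
    rw [h2] at h1
    exact h1
  rw [← hausdorffMeasure_real]
  -- for every ε
  have key : ∀ ε : ℝ≥0, 0 < ε → (μH[1] : Measure ℝ) (u '' B) ≤ ε * (μH[2] : Measure E2) K := by
    intro ε hε
    obtain ⟨δ, hδ, h⟩ := flat_est hu hg hh (ε := (ε : ℝ)) (by exact_mod_cast hε)
    set s : ℕ → Set E2 := fun n => Metric.ball (TopologicalSpace.denseSeq E2 n) (δ / 2) with hs
    set t : ℕ → Set E2 := disjointed s with ht
    have hcov : (⋃ n, t n) = univ := by
      rw [ht, iUnion_disjointed]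
      rw [eq_univ_iff_forall]
      intro x
      have h1 := TopologicalSpace.denseRange_denseSeq E2
      obtain ⟨n, hn⟩ := h1.exists_dist_lt x (half_pos hδ)
      exact mem_iUnion.2 ⟨n, hn⟩
    have hts : ∀ n, t n ⊆ s n := fun n => disjointed_subset s n
    have htm : ∀ n, MeasurableSet (t n) := fun n =>
      MeasurableSet.disjointed (fun i => Metric.isOpen_ball.measurableSet) n
    have htd : Pairwise (Function.onFun Disjoint t) := disjoint_disjointed s
    have hpiece : ∀ n, (μH[1] : Measure ℝ) (u '' (B ∩ t n)) ≤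
        ε * (μH[2] : Measure E2) (K ∩ t n) := by
      intro n
      have hH : HolderOnWith ε 2 u (B ∩ t n) := by
        intro x hx y hy
        have hd : dist x y < δ := by
          have h1 := Metric.mem_ball.1 (hts n hx.2)
          have h2 := Metric.mem_ball'.1 (hts n hy.2)
          have h3 := dist_triangle x (TopologicalSpace.denseSeq E2 n) y
          linarith
        have h4 := h y hy.1.1 hy.1.2.1 hy.1.2.2 x hx.1.1 hd
        rw [edist_dist, edist_dist, Real.dist_eq]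
        have h5 : ENNReal.ofReal |u x - u y| ≤ ENNReal.ofReal (ε * dist x y ^ 2) :=
          ENNReal.ofReal_le_ofReal h4
        refine h5.trans (le_of_eq ?_)
        rw [ENNReal.ofReal_mul (by positivity), ENNReal.ofReal_coe_nnreal,
          ENNReal.ofReal_pow dist_nonneg]
        norm_num
      have h6 := hH.hausdorffMeasure_image_le (by norm_num) (d := 1) (by norm_num)
      have e : ((2 : ℝ≥0) : ℝ) * 1 = 2 := by norm_num
      rw [e, ENNReal.rpow_one] at h6
      refine h6.trans ?_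
      gcongr
      exact fun x hx => hx.1
    calc (μH[1] : Measure ℝ) (u '' B) ≤ (μH[1] : Measure ℝ) (⋃ n, u '' (B ∩ t n)) := by
          refine measure_mono ?_
          rw [← image_iUnion, ← inter_iUnion, hcov, inter_univ]
      _ ≤ ∑' n, (μH[1] : Measure ℝ) (u '' (B ∩ t n)) := measure_iUnion_le _
      _ ≤ ∑' n, ε * (μH[2] : Measure E2) (K ∩ t n) := ENNReal.tsum_le_tsum hpiece
      _ = ε * ∑' n, (μH[2] : Measure E2) (K ∩ t n) := ENNReal.tsum_mul_left
      _ = ε * (μH[2] : Measure E2) K := by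
          rw [← measure_iUnion (fun i j hij => ?_) (fun n => ?_), ← inter_iUnion, hcov, inter_univ]
          · exact (htd hij).mono inter_subset_right inter_subset_right
          · exact hK.measurableSet.inter (htm n)
  -- let ε → 0
  by_contra hne
  have hpos : 0 < (μH[1] : Measure ℝ) (u '' B) := pos_iff_ne_zero.2 hne
  have h1 : (μH[1] : Measure ℝ) (u '' B) < ⊤ := by
    have := key 1 one_pos
    refine lt_of_le_of_lt this ?_
    simpa using hfin
  set M := ((μH[2] : Measure E2) K).toNNReal with hM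
  set a := ((μH[1] : Measure ℝ) (u '' B)).toNNReal with ha
  have hMK : (μH[2] : Measure E2) K = M := (ENNReal.coe_toNNReal hfin.ne).symm
  have haK : (μH[1] : Measure ℝ) (u '' B) = a := (ENNReal.coe_toNNReal h1.ne).symm
  rw [haK] at hpos
  have hapos : 0 < a := by exact_mod_cast hpos
  have h2 := key (a / (2 * (M + 1))) (by positivity)
  rw [haK, hMK] at h2
  have h3 : a ≤ a / (2 * (M + 1)) * M := by exact_mod_cast h2
  have h4 : (a : ℝ) ≤ a / (2 * (M + 1)) * M := by exact_mod_cast h3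
  have h5 : (0 : ℝ) < a := by exact_mod_cast hapos
  have h6 : (0 : ℝ) ≤ M := M.2
  rw [div_mul_eq_mul_div, le_div_iff₀ (by positivity)] at h4
  nlinarith

/-- **Sard's theorem** for functions of class `C²` of two variables. -/
theorem sard {U : Set E2} (hU : IsOpen U) {u : E2 → ℝ} (hu : ContDiffOn ℝ 2 u U) :
    volume (u '' {x ∈ U | fderiv ℝ u x = 0}) = 0 := by
  have hcd : ∀ x ∈ U, ContDiffAt ℝ 2 u x := fun x hx => hu.contDiffAt (hU.mem_nhds hx)
  have hud : ∀ x ∈ U, DifferentiableAt ℝ u x := fun x hx => (hcd x hx).differentiableAt (by norm_num)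
  have hg1 : ∀ x ∈ U, ContDiffAt ℝ 1 (fderiv ℝ u) x := fun x hx =>
    (hcd x hx).fderiv_right (by norm_num)
  have hgd : ∀ x ∈ U, DifferentiableAt ℝ (fderiv ℝ u) x := fun x hx =>
    (hg1 x hx).differentiableAt (by norm_num)
  have hhc : ContinuousOn (fderiv ℝ (fderiv ℝ u)) U := fun x hx =>
    (((hg1 x hx).fderiv_right (m := 0) (by norm_num)).continuousAt).continuousWithinAt
  -- the pieces
  have hsub : {x ∈ U | fderiv ℝ u x = 0} ⊆
      ({x ∈ U | fderiv ℝ u x = 0 ∧ fderiv ℝ (fderiv ℝ u) x = 0} ∪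
        {x ∈ U | fderiv ℝ u x = 0 ∧ fderiv ℝ (fun y => fderiv ℝ u y (ee 0)) x ≠ 0}) ∪
        {x ∈ U | fderiv ℝ u x = 0 ∧ fderiv ℝ (fun y => fderiv ℝ u y (ee 1)) x ≠ 0} := by
    rintro x ⟨hx, h0⟩
    by_cases h1 : fderiv ℝ (fun y => fderiv ℝ u y (ee 0)) x = 0
    · by_cases h2 : fderiv ℝ (fun y => fderiv ℝ u y (ee 1)) x = 0
      · refine Or.inl (Or.inl ⟨hx, h0, ?_⟩)
        ext v w
        have e : ∀ i, fderiv ℝ (fun y => fderiv ℝ u y (ee i)) x v =
            fderiv ℝ (fderiv ℝ u) x v (ee i) := by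
          intro i
          rw [fderiv_clm_apply (hgd x hx) (differentiableAt_const _)]
          simp
        have e0 := e 0
        have e1 := e 1
        rw [h1] at e0
        rw [h2] at e1
        rw [clm_eq (fderiv ℝ (fderiv ℝ u) x v) w, ← e0, ← e1]
        simp
      · exact Or.inr ⟨hx, h0, h2⟩
    · exact Or.inl (Or.inr ⟨hx, h0, h1⟩)
  have hloc : ∀ (P : Set E2), (∀ x ∈ P, ∃ V ∈ 𝓝 x, volume (u '' (P ∩ V)) = 0) →
      volume (u '' P) = 0 := by
    intro P hP
    have h1 := measure_null_of_locally_null (μ := OuterMeasure.comap u volume.toOuterMeasure) P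
      (by
        intro x hx
        obtain ⟨V, hV, h2⟩ := hP x hx
        exact ⟨P ∩ V, inter_mem_nhdsWithin P hV, h2⟩)
    exact h1
  have hA : ∀ i, volume (u '' {x ∈ U | fderiv ℝ u x = 0 ∧
      fderiv ℝ (fun y => fderiv ℝ u y (ee i)) x ≠ 0}) = 0 := by
    intro i
    refine hloc _ ?_
    rintro x ⟨hx, h0, h1⟩
    obtain ⟨V, hV, h2⟩ := sardA (u := u) (v := fun y => fderiv ℝ u y (ee i)) (x0 := x)
      (by filter_upwards [hU.mem_nhds hx] with y hy using hud y hy)
      ((hg1 x hx).clm_apply contDiffAt_const) h1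
    refine ⟨V, hV, measure_mono_null (image_mono ?_) h2⟩
    rintro y ⟨⟨hy1, hy2, hy3⟩, hy4⟩
    refine ⟨hy4, ?_, hy2⟩
    rw [hy2]; simp
  have hB : volume (u '' {x ∈ U | fderiv ℝ u x = 0 ∧ fderiv ℝ (fderiv ℝ u) x = 0}) = 0 := by
    refine hloc _ ?_
    rintro x ⟨hx, h0, h1⟩
    obtain ⟨r, hr, hrU⟩ := Metric.nhds_basis_closedBall.mem_iff.1 (hU.mem_nhds hx)
    have h2 := sardB (u := u) (x0 := x) (r := r) (fun y hy => hud y (hrU hy))
      (fun y hy => hgd y (hrU hy)) (hhc.mono hrU)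
    refine ⟨Metric.closedBall x r, Metric.closedBall_mem_nhds x hr,
      measure_mono_null (image_mono ?_) h2⟩
    rintro y ⟨⟨hy1, hy2, hy3⟩, hy4⟩
    exact ⟨hy4, hy2, hy3⟩
  refine measure_mono_null (image_mono hsub) ?_
  rw [image_union, image_union]
  exact measure_union_null (measure_union_null hB (hA 0)) (hA 1)

end Pool.RL
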