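import Pool.Agent.Work.MP_02e829_rl.Key
import Pool.Agent.Work.MP_02e829_rl.Sard
import Pool.Agent.Work.MP_02e829_fr.Deformation

/-!
# Rectilinear trajectories: the surface
-/

open Set Filter Manifold MeasureTheory
open scoped Topology ContDiff Manifold

set_option autoImplicit false
set_option linter.unusedSectionVars false

universe w

namespace Pool.RL

variable {S : Type w} [TopologicalSpace S] [ChartedSpace E2 S]

/-- the hypotheses, with trajectories on lines -/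
structure Rect (f : ℝ → S → E3) : Prop where
  smooth : ∀ t ∈ Icc (0 : ℝ) 1, ContMDiff (𝓡 2) (𝓡 3) 2 (f t)
  imm : ∀ p, Function.Injective (FRD.dvec (f 0) p)
  iso : ∀ t ∈ Icc (0 : ℝ) 1, ∀ p v w, FRD.firstForm (f t) p v w = FRD.firstForm (f 0) p v w
  cont : ∀ p, ContinuousOn (fun t => f t p) (Icc 0 1)
  cont1 : ∀ p v, ContinuousOn (fun t => FRD.dvec (f t) p v) (Icc 0 1)
  rect : ∀ p, ∃ d : E3, ∀ t ∈ Icc (0 : ℝ) 1, ∃ c : ℝ, f t p = f 0 p + c • d

variable [IsManifold (𝓡 2) 2 S]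

/-- the derivative in a chart -/
theorem fderiv_chart {f : S → E3} (hf : ContMDiff (𝓡 2) (𝓡 3) 2 f) (p : S) {x : E2}
    (hx : x ∈ (extChartAt (𝓡 2) p).target) (w : E2) :
    fderiv ℝ (fun y => f ((extChartAt (𝓡 2) p).symm y)) x w =
      FRD.dvec f ((extChartAt (𝓡 2) p).symm x)
        (mfderiv 𝓘(ℝ, E2) (𝓡 2) (extChartAt (𝓡 2) p).symm x w) := by
  have h1 : MDifferentiableAt 𝓘(ℝ, E2) (𝓡 2) (extChartAt (𝓡 2) p).symm x := by
    have h2 := (contMDiffOn_extChartAt_symm (I := 𝓡 2) (n := 2) p)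
    have h3 : ContMDiffAt 𝓘(ℝ, E2) (𝓡 2) 2 (extChartAt (𝓡 2) p).symm x :=
      (h2 x hx).contMDiffAt ((isOpen_extChartAt_target p).mem_nhds hx)
    exact h3.mdifferentiableAt (by norm_num)
  have h4 : MDifferentiableAt (𝓡 2) (𝓡 3) f ((extChartAt (𝓡 2) p).symm x) :=
    (hf _).mdifferentiableAt (by norm_num)
  have h5 := mfderiv_comp x h4 h1
  have h6 : mfderiv 𝓘(ℝ, E2) (𝓡 3) (f ∘ (extChartAt (𝓡 2) p).symm) x =
      fderiv ℝ (fun y => f ((extChartAt (𝓡 2) p).symm y)) x := mfderiv_eq_fderiv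
  rw [← h6, h5]
  rfl

/-- the differential of the chart is injective -/
theorem chart_injective (p : S) {x : E2} (hx : x ∈ (extChartAt (𝓡 2) p).target) :
    Function.Injective (mfderiv 𝓘(ℝ, E2) (𝓡 2) (extChartAt (𝓡 2) p).symm x) := by
  have : IsManifold (𝓡 2) 1 S := IsManifold.of_le (n := 2) (by norm_num)
  have h1 := isInvertible_mfderivWithin_extChartAt_symm (I := 𝓡 2) hx
  have h2 : range (𝓡 2) = univ := (𝓡 2).range_eq_univ
  rw [h2, mfderivWithin_univ] at h1
  exact h1.injective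

/-- the family in a chart -/
theorem Rect.loc {f : ℝ → S → E3} (h : Rect f) (p : S) :
    LocFam (extChartAt (𝓡 2) p).target (fun t y => f t ((extChartAt (𝓡 2) p).symm y)) where
  op := isOpen_extChartAt_target p
  smooth := fun t ht => by
    have h1 := (h.smooth t ht).comp_contMDiffOn
      (contMDiffOn_extChartAt_symm (I := 𝓡 2) (n := 2) p)
    exact contMDiffOn_iff_contDiffOn.1 h1
  imm := fun x hx => by
    have h1 : ⇑(fderiv ℝ (fun y => f 0 ((extChartAt (𝓡 2) p).symm y)) x) =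
        FRD.dvec (f 0) ((extChartAt (𝓡 2) p).symm x) ∘
          (mfderiv 𝓘(ℝ, E2) (𝓡 2) (extChartAt (𝓡 2) p).symm x) :=
      funext fun w => fderiv_chart (h.smooth 0 zero_mem') p hx w
    rw [h1]
    exact (h.imm _).comp (chart_injective p hx)
  iso := fun t ht x hx v w => by
    rw [fderiv_chart (h.smooth t ht) p hx, fderiv_chart (h.smooth t ht) p hx,
      fderiv_chart (h.smooth 0 zero_mem') p hx, fderiv_chart (h.smooth 0 zero_mem') p hx]
    exact h.iso t ht _ _ _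
  cont := fun x _ => h.cont _
  cont1 := fun x hx v => by
    refine (h.cont1 ((extChartAt (𝓡 2) p).symm x)
      (mfderiv 𝓘(ℝ, E2) (𝓡 2) (extChartAt (𝓡 2) p).symm x v)).congr fun t ht => ?_
    exact fderiv_chart (h.smooth t ht) p hx v
  rect := fun x _ => h.rect _

/-- **The displacement is constant on the surface.** -/
theorem Rect.disp [CompactSpace S] [ConnectedSpace S] {f : ℝ → S → E3} (h : Rect f) {t0 : ℝ}
    (ht0 : t0 ∈ Icc (0 : ℝ) 1) (p q : S) : ‖f t0 q - f 0 q‖ ≤ ‖f t0 p - f 0 p‖ := by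
  by_contra hlt
  rw [not_le] at hlt
  set u : S → ℝ := fun m => ‖f t0 m - f 0 m‖ with hu
  have huc : Continuous u :=
    ((h.smooth t0 ht0).continuous.sub (h.smooth 0 zero_mem').continuous).norm
  -- finitely many charts
  obtain ⟨T, -, hT⟩ := isCompact_univ.elim_nhds_subcover
    (fun p : S => (extChartAt (𝓡 2) p).source) (fun p _ => extChartAt_source_mem_nhds p)
  -- the critical values
  set F : S → ℝ → E2 → E3 := fun i t y => f t ((extChartAt (𝓡 2) i).symm y) with hF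
  set Z : S → Set ℝ := fun i => (ww (F i) t0 t0) ''
    {x ∈ {x ∈ (extChartAt (𝓡 2) i).target | F i t0 x ≠ F i 0 x} |
      fderiv ℝ (ww (F i) t0 t0) x = 0} with hZ
  have hZ0 : ∀ i, volume (Z i) = 0 := by
    intro i
    have hl : LocFam (extChartAt (𝓡 2) i).target (F i) := h.loc i
    refine sard ?_ ?_
    · rw [isOpen_iff_mem_nhds]
      rintro x ⟨hx1, hx2⟩
      exact hl.eventually_ne ht0 hx1 hx2
    · rintro x ⟨hx1, hx2⟩
      exact (hl.cda_ww ht0 ht0 hx1 hx2).contDiffWithinAt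
  have hZT : volume (⋃ i ∈ T, Z i) = 0 :=
    (measure_biUnion_null_iff T.countable_toSet).2 fun i _ => hZ0 i
  obtain ⟨om, ho1, ho2⟩ : ∃ om ∈ Ioo (u p) (u q), om ∉ ⋃ i ∈ T, Z i := by
    by_contra hcon
    push Not at hcon
    have h1 : volume (Ioo (u p) (u q)) = 0 := measure_mono_null hcon hZT
    rw [Real.volume_Ioo, ENNReal.ofReal_eq_zero] at h1
    have : u p < u q := hlt
    linarith
  -- the level set
  have hne : (u ⁻¹' {om}).Nonempty := by
    obtain ⟨m, hm⟩ := intermediate_value_univ p q huc ⟨ho1.1.le, ho1.2.le⟩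
    exact ⟨m, hm⟩
  have hcomp : IsCompact (u ⁻¹' {om}) := (isClosed_singleton.preimage huc).isCompact
  have hf0 : Continuous fun m => ‖f 0 m‖ ^ 2 := ((h.smooth 0 zero_mem').continuous.norm).pow 2
  obtain ⟨m, hm, hmax⟩ := hcomp.exists_isMaxOn hne hf0.continuousOn
  obtain ⟨i, hiT, hmi⟩ := mem_iUnion₂.1 (hT (mem_univ m))
  have hl : LocFam (extChartAt (𝓡 2) i).target (F i) := h.loc i
  set x0 := extChartAt (𝓡 2) i m with hx0
  have hx0t : x0 ∈ (extChartAt (𝓡 2) i).target := (extChartAt (𝓡 2) i).map_source hmi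
  have hsymm : (extChartAt (𝓡 2) i).symm x0 = m := (extChartAt (𝓡 2) i).left_inv hmi
  have hwu : ∀ x, ww (F i) t0 t0 x = u ((extChartAt (𝓡 2) i).symm x) := fun x => ww_self _ _ _
  have hm' : u m = om := hm
  have hpos : 0 < om := lt_of_le_of_lt (norm_nonneg _) ho1.1
  have hne0 : F i t0 x0 ≠ F i 0 x0 := by
    intro h0
    have h1 := hwu x0
    rw [hsymm, hm', ww_self, h0, sub_self, norm_zero] at h1
    exact hpos.ne h1
  have hw0 : fderiv ℝ (ww (F i) t0 t0) x0 ≠ 0 := by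
    intro h0
    apply ho2
    refine mem_iUnion₂.2 ⟨i, hiT, x0, ⟨⟨hx0t, hne0⟩, h0⟩, ?_⟩
    rw [hwu, hsymm, hm']
  refine key hl ht0 hx0t hne0 hw0 (Eventually.of_forall fun x hx => ?_)
  have h1 : (extChartAt (𝓡 2) i).symm x ∈ u ⁻¹' {om} := by
    rw [mem_preimage, mem_singleton_iff, ← hwu, hx, hwu, hsymm, hm']
  have h2 := hmax h1
  simp only [hF, hsymm]
  exact h2

/-- **The theorem for trajectories on lines.** -/
theorem Rect.trivial [CompactSpace S] [ConnectedSpace S] {f : ℝ → S → E3} (h : Rect f) {t0 : ℝ}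
    (ht0 : t0 ∈ Icc (0 : ℝ) 1) : ∃ v : E3, ∀ p, f t0 p = f 0 p + v := by
  have hconst : ∀ t ∈ Icc (0 : ℝ) 1, ∀ p q, ‖f t q - f 0 q‖ = ‖f t p - f 0 p‖ :=
    fun t ht p q => le_antisymm (h.disp ht p q) (h.disp ht q p)
  have hlc : IsLocallyConstant fun p => f t0 p - f 0 p := by
    rw [IsLocallyConstant.iff_eventually_eq]
    intro p
    have hl := h.loc p
    have h1 : ∀ x ∈ (extChartAt (𝓡 2) p).target, fderiv ℝ (fun y =>
        f t0 ((extChartAt (𝓡 2) p).symm y) - f 0 ((extChartAt (𝓡 2) p).symm y)) x = 0 :=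
      fun x hx => last hl (fun t ht => ⟨‖f t p - f 0 p‖, fun y _ => hconst t ht p _⟩) ht0 hx
    obtain ⟨r, hr, hb⟩ := Metric.mem_nhds_iff.1 (extChartAt_target_mem_nhds (I := 𝓡 2) p)
    have h2 : ∀ᶠ z in 𝓝 p, extChartAt (𝓡 2) p z ∈ Metric.ball (extChartAt (𝓡 2) p p) r :=
      (continuousAt_extChartAt p).eventually (Metric.ball_mem_nhds _ hr)
    filter_upwards [h2, extChartAt_source_mem_nhds (I := 𝓡 2) p] with z hz hz2
    have h3 := Metric.isOpen_ball.is_const_of_fderiv_eq_zero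
      ((convex_ball (extChartAt (𝓡 2) p p) r).isPreconnected) (f := fun y =>
        f t0 ((extChartAt (𝓡 2) p).symm y) - f 0 ((extChartAt (𝓡 2) p).symm y))
      (fun x hx => (((hl.cda ht0 (hb hx)).sub (hl.cda zero_mem' (hb hx))).differentiableAt
        (by norm_num)).differentiableWithinAt)
      (fun x hx => h1 x (hb hx)) hz (Metric.mem_ball_self hr)
    simp only [(extChartAt (𝓡 2) p).left_inv hz2, extChartAt_to_inv] at h3
    exact h3
  obtain ⟨p0⟩ : Nonempty S := inferInstance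
  refine ⟨f t0 p0 - f 0 p0, fun p => ?_⟩
  have h1 : f t0 p - f 0 p = f t0 p0 - f 0 p0 := hlc.apply_eq_of_preconnectedSpace p p0
  rw [← h1]
  abel

end Pool.RL
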