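import Pool.Agent.Work.MP_02e829_rl.Local

/-!
# Rectilinear trajectories: the key lemma
-/

open Set Filter Topology
open scoped ContDiff

set_option autoImplicit false

namespace Pool.RL

variable {U : Set E2} {F : ℝ → E2 → E3}

lemma ww_eq_norm (F : ℝ → E2 → E3) (t0 : ℝ) : ww F t0 t0 = fun x => ‖F t0 x - F 0 x‖ :=
  funext fun x => ww_self F t0 x

/-- **Key lemma.** On a level set of the displacement the norm of `F 0` has no local maximum. -/
theorem key (h : LocFam U F) {t0 : ℝ} (ht0 : t0 ∈ Icc (0 : ℝ) 1) {x0 : E2} (hx0 : x0 ∈ U)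
    (hne : F t0 x0 ≠ F 0 x0) (hw : fderiv ℝ (ww F t0 t0) x0 ≠ 0) :
    ¬ ∀ᶠ x in 𝓝 x0, ww F t0 t0 x = ww F t0 t0 x0 → ‖F 0 x‖ ^ 2 ≤ ‖F 0 x0‖ ^ 2 := by
  intro hmax
  set w := ww F t0 t0 with hwdef
  have hwc : ContDiffAt ℝ 2 w x0 := h.cda_ww ht0 ht0 hx0 hne
  obtain ⟨τ, Ψ, hΨ0, hΨc, hΨr, hΨl⟩ := coord two_ne_zero hwc hw
  set w0 := w x0 with hw0
  set s0 := τ x0 with hs0
  -- the good neighbourhood
  have hV : ∀ᶠ x in 𝓝 x0, (x ∈ U ∧ F t0 x ≠ F 0 x) ∧ fderiv ℝ w x ≠ 0 := by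
    have h1 : ContinuousAt (fderiv ℝ w) x0 :=
      (hwc.fderiv_right (m := 0) (by norm_num)).continuousAt
    exact (h.eventually_ne ht0 hx0 hne).and (h1.eventually_ne hw)
  have hq : ∀ᶠ q in 𝓝 (w0, s0), (((Ψ q ∈ U ∧ F t0 (Ψ q) ≠ F 0 (Ψ q)) ∧ fderiv ℝ w (Ψ q) ≠ 0) ∧
      ContDiffAt ℝ 2 Ψ q) ∧ ∀ᶠ q' in 𝓝 q, w (Ψ q') = q'.1 ∧ τ (Ψ q') = q'.2 := by
    have h1 := hΨc.continuousAt
    rw [ContinuousAt, hΨ0] at h1
    exact ((h1.eventually hV).and (hΨc.eventually (by simp))).and hΨr.eventually_nhds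
  obtain ⟨r, hr, hball⟩ := Metric.eventually_nhds_iff_ball.1 hq
  have hmem : ∀ w1 ∈ Metric.ball w0 r, ∀ s ∈ Metric.ball s0 r, (w1, s) ∈
      Metric.ball (w0, s0) r := by
    intro w1 h1 s h2
    rw [← ball_prod_same]
    exact ⟨h1, h2⟩
  have hw0r : w0 ∈ Metric.ball w0 r := Metric.mem_ball_self hr
  have hs0r : s0 ∈ Metric.ball s0 r := Metric.mem_ball_self hr
  have hΨd : ∀ q ∈ Metric.ball (w0, s0) r, HasFDerivAt Ψ (fderiv ℝ Ψ q) q := fun q hq =>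
    ((hball q hq).1.2.differentiableAt (by norm_num)).hasFDerivAt
  have hwd : ∀ q ∈ Metric.ball (w0, s0) r, HasFDerivAt w (fderiv ℝ w (Ψ q)) (Ψ q) := fun q hq =>
    ((h.cda_ww ht0 ht0 (hball q hq).1.1.1.1 (hball q hq).1.1.1.2).differentiableAt
      (by norm_num)).hasFDerivAt
  have hxd : ∀ q ∈ Metric.ball (w0, s0) r, HasFDerivAt (xi F t0) (fderiv ℝ (xi F t0) (Ψ q)) (Ψ q) :=
    fun q hq => ((h.cda_xi ht0 (hball q hq).1.1.1.1 (hball q hq).1.1.1.2).differentiableAt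
      (by norm_num)).hasFDerivAt
  have hFd : ∀ q ∈ Metric.ball (w0, s0) r, HasFDerivAt (F 0) (fderiv ℝ (F 0) (Ψ q)) (Ψ q) :=
    fun q hq => ((h.cda zero_mem' (hball q hq).1.1.1.1).differentiableAt
      (by norm_num)).hasFDerivAt
  -- the derivatives of `w` and `τ` in the coordinates
  have hdw : ∀ q ∈ Metric.ball (w0, s0) r, ∀ p : ℝ × ℝ,
      fderiv ℝ w (Ψ q) (fderiv ℝ Ψ q p) = p.1 := by
    intro q hq p
    have h1 := (hwd q hq).comp q (hΨd q hq)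
    have h2 : (w ∘ Ψ) =ᶠ[𝓝 q] fun q' => q'.1 := by
      filter_upwards [(hball q hq).2] with q' hq' using hq'.1
    have h3 := h1.unique (hasFDerivAt_fst.congr_of_eventuallyEq h2)
    exact congrArg (fun l : ℝ × ℝ →L[ℝ] ℝ => l p) h3
  have hdτ : ∀ q ∈ Metric.ball (w0, s0) r, ∀ p : ℝ × ℝ, τ (fderiv ℝ Ψ q p) = p.2 := by
    intro q hq p
    have h1 := (τ.hasFDerivAt (x := Ψ q)).comp q (hΨd q hq)
    have h2 : (τ ∘ Ψ) =ᶠ[𝓝 q] fun q' => q'.2 := by
      filter_upwards [(hball q hq).2] with q' hq' using hq'.2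
    have h3 := h1.unique (hasFDerivAt_snd.congr_of_eventuallyEq h2)
    exact congrArg (fun l : ℝ × ℝ →L[ℝ] ℝ => l p) h3
  -- the kernel
  have hker : ∀ q ∈ Metric.ball (w0, s0) r,
      fderiv ℝ (xi F t0) (Ψ q) (fderiv ℝ Ψ q (0, 1)) = 0 ∧
      inner ℝ (fderiv ℝ (F 0) (Ψ q) (fderiv ℝ Ψ q (0, 1))) (xi F t0 (Ψ q)) = 0 ∧
      ∀ v', inner ℝ (fderiv ℝ (F 0) (Ψ q) (fderiv ℝ Ψ q (0, 1)))
        (fderiv ℝ (xi F t0) (Ψ q) v') = 0 := fun q hq =>
    h.kernel ht0 (hball q hq).1.1.1.1 (hball q hq).1.1.1.2 (hball q hq).1.1.2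
      (by rw [hdw q hq])
  -- curves
  have hline : ∀ (w1 s : ℝ), HasDerivAt (fun s : ℝ => (w1, s)) ((0 : ℝ), (1 : ℝ)) s := fun w1 s =>
    (hasDerivAt_const s w1).prodMk (hasDerivAt_id s)
  have hline' : ∀ (s w1 : ℝ), HasDerivAt (fun w1 : ℝ => (w1, s)) ((1 : ℝ), (0 : ℝ)) w1 :=
    fun s w1 => (hasDerivAt_id w1).prodMk (hasDerivAt_const w1 s)
  have hxic : ∀ w1 ∈ Metric.ball w0 r, ∀ s ∈ Metric.ball s0 r,
      xi F t0 (Ψ (w1, s)) = xi F t0 (Ψ (w1, s0)) := by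
    intro w1 hw1 s hs
    have hd : ∀ s ∈ Metric.ball s0 r, HasDerivAt (fun s => xi F t0 (Ψ (w1, s))) 0 s := by
      intro s hs
      have hq := hmem w1 hw1 s hs
      have h1 := ((hxd _ hq).comp (w1, s) (hΨd _ hq)).comp_hasDerivAt s (hline w1 s)
      have h2 : ((fderiv ℝ (xi F t0) (Ψ (w1, s))).comp (fderiv ℝ Ψ (w1, s))) (0, 1) = 0 :=
        (hker _ hq).1
      rw [h2] at h1
      exact h1
    exact Metric.isOpen_ball.is_const_of_deriv_eq_zero
      ((convex_ball s0 r).isPreconnected) (f := fun s => xi F t0 (Ψ (w1, s)))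
      (fun s hs => (hd s hs).differentiableAt.differentiableWithinAt)
      (fun s hs => (hd s hs).deriv) hs hs0r
  set y0 : E3 := fderiv ℝ (xi F t0) (Ψ (w0, s0)) (fderiv ℝ Ψ (w0, s0) (1, 0)) with hy0
  have hy : ∀ s ∈ Metric.ball s0 r,
      fderiv ℝ (xi F t0) (Ψ (w0, s)) (fderiv ℝ Ψ (w0, s) (1, 0)) = y0 := by
    intro s hs
    have hq := hmem w0 hw0r s hs
    have hq0 := hmem w0 hw0r s0 hs0r
    have h1 := ((hxd _ hq).comp (w0, s) (hΨd _ hq)).comp_hasDerivAt w0 (hline' s w0)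
    have h2 := ((hxd _ hq0).comp (w0, s0) (hΨd _ hq0)).comp_hasDerivAt w0 (hline' s0 w0)
    have h3 : ((xi F t0 ∘ Ψ) ∘ fun w1 : ℝ => (w1, s)) =ᶠ[𝓝 w0]
        ((xi F t0 ∘ Ψ) ∘ fun w1 : ℝ => (w1, s0)) := by
      filter_upwards [Metric.ball_mem_nhds w0 hr] with w1 hw1 using hxic w1 hw1 s hs
    exact h1.unique (h2.congr_of_eventuallyEq h3)
  have hq0 := hmem w0 hw0r s0 hs0r
  have hy0ne : y0 ≠ 0 := by
    intro h0
    apply h.fderiv_xi_ne ht0 hx0 hne hw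
    ext1 v
    have h1 : HasFDerivAt (fun x => Ψ (w x, τ x))
        ((fderiv ℝ Ψ (w0, s0)).comp ((fderiv ℝ w x0).prod τ)) x0 := by
      have h2 : HasFDerivAt w (fderiv ℝ w x0) x0 :=
        (hwc.differentiableAt (by norm_num)).hasFDerivAt
      exact HasFDerivAt.comp x0 (g := Ψ) (hΨd _ hq0) (h2.prodMk τ.hasFDerivAt)
    have h3 := h1.unique ((hasFDerivAt_id x0).congr_of_eventuallyEq hΨl)
    have h4 : fderiv ℝ Ψ (w0, s0) (fderiv ℝ w x0 v, τ v) = v :=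
      congrArg (fun l : E2 →L[ℝ] E2 => l v) h3
    have h5 : (fderiv ℝ w x0 v, τ v) = (fderiv ℝ w x0 v) • ((1 : ℝ), (0 : ℝ)) +
        (τ v) • ((0 : ℝ), (1 : ℝ)) := by simp
    rw [h5, map_add, map_smul, map_smul] at h4
    rw [← h4, map_add, map_smul, map_smul]
    have h6 := (hker _ hq0).1
    rw [hΨ0] at h6
    rw [hy0, hΨ0] at h0
    rw [h0, h6]
    simp
  -- the curve
  have hc : ∀ s ∈ Metric.ball s0 r, HasDerivAt (fun s => F 0 (Ψ (w0, s)))
      (fderiv ℝ (F 0) (Ψ (w0, s)) (fderiv ℝ Ψ (w0, s) (0, 1))) s := by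
    intro s hs
    have hq := hmem w0 hw0r s hs
    exact ((hFd _ hq).comp (w0, s) (hΨd _ hq)).comp_hasDerivAt s (hline w0 s)
  refine curve_lemma hr hc (a := xi F t0 x0) (b := y0) ?_ hy0ne ?_ ?_ ?_ ?_ ?_
  · intro h0
    have := xi_unit hne
    rw [h0, inner_zero_left] at this
    exact zero_ne_one this
  · rw [real_inner_comm, hy0, hΨ0]
    exact h.inner_fderiv_xi ht0 hx0 hne _
  · intro s hs
    have h1 := (hker _ (hmem w0 hw0r s hs)).2.1
    rw [hxic w0 hw0r s hs, hΨ0] at h1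
    exact h1
  · intro s hs
    have h1 := (hker _ (hmem w0 hw0r s hs)).2.2 (fderiv ℝ Ψ (w0, s) (1, 0))
    rw [hy s hs] at h1
    exact h1
  · intro h0
    rw [hΨ0] at h0
    have h1 : fderiv ℝ (F 0) x0 (fderiv ℝ Ψ (w0, s0) (0, 1)) = fderiv ℝ (F 0) x0 0 := by
      rw [h0, map_zero]
    have h2 := h.imm x0 hx0 h1
    have h3 := hdτ _ hq0 (0, 1)
    rw [h2, map_zero] at h3
    exact zero_ne_one h3
  · have h1 : ContinuousAt (fun s : ℝ => Ψ (w0, s)) s0 := by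
      have h2 := (hΨd _ hq0).continuousAt
      exact ContinuousAt.comp (g := Ψ) h2 (by fun_prop)
    rw [ContinuousAt, hΨ0] at h1
    filter_upwards [h1.eventually hmax, Metric.ball_mem_nhds s0 hr] with s hs hs2
    rw [hΨ0]
    apply hs
    exact (hball _ (hmem w0 hw0r s hs2)).2.self_of_nhds.1

/-- If all displacements are constant then the displacement vector is locally constant. -/
theorem last (h : LocFam U F) (hc : ∀ t ∈ Icc (0 : ℝ) 1, ∃ c : ℝ, ∀ x ∈ U, ‖F t x - F 0 x‖ = c)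
    {t0 : ℝ} (ht0 : t0 ∈ Icc (0 : ℝ) 1) {x : E2} (hx : x ∈ U) :
    fderiv ℝ (fun y => F t0 y - F 0 y) x = 0 := by
  obtain ⟨c, hc0⟩ := hc t0 ht0
  by_cases hne : F t0 x = F 0 x
  · have h1 : c = 0 := by rw [← hc0 x hx, hne, sub_self, norm_zero]
    have h2 : (fun y => F t0 y - F 0 y) =ᶠ[𝓝 x] fun _ => (0 : E3) := by
      filter_upwards [h.op.mem_nhds hx] with y hy
      rw [← norm_eq_zero, hc0 y hy, h1]
    rw [h2.fderiv_eq]
    exact fderiv_const_apply (0 : E3)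
  · -- every `w_t` has derivative zero where it is not zero
    have hpos : 0 < c := by
      rw [← hc0 x hx]
      exact norm_pos_iff.2 (sub_ne_zero.2 hne)
    have h1 : ∀ t ∈ Icc (0 : ℝ) 1, ww F t0 t x ≠ 0 → fderiv ℝ (ww F t0 t) x = 0 := by
      intro t ht hwt
      obtain ⟨c1, hc1⟩ := hc t ht
      have h2 : (fun y => ww F t0 t y * ww F t0 t y) =ᶠ[𝓝 x] fun _ => c1 ^ 2 := by
        filter_upwards [h.eventually_ne ht0 hx hne] with y hy
        have h3 := h.eq_add ht0 ht hy.1 hy.2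
        have h4 : ‖F t y - F 0 y‖ ^ 2 = ww F t0 t y * ww F t0 t y := by
          rw [h3, add_sub_cancel_left, ← real_inner_self_eq_norm_sq, real_inner_smul_left,
            real_inner_smul_right, xi_unit hy.2]
          ring
        rw [← h4, hc1 y hy.1]
      have hd : HasFDerivAt (ww F t0 t) (fderiv ℝ (ww F t0 t) x) x :=
        ((h.cda_ww ht0 ht hx hne).differentiableAt (by norm_num)).hasFDerivAt
      have h3 := (hd.mul hd).unique ((hasFDerivAt_const (c1 ^ 2) x).congr_of_eventuallyEq h2)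
      ext1 v
      have h4 := congrArg (fun l : E2 →L[ℝ] ℝ => l v) h3
      simp only [add_apply, smul_apply, smul_eq_mul, zero_apply] at h4
      have h5 : ww F t0 t x * fderiv ℝ (ww F t0 t) x v = 0 := by linarith
      exact (mul_eq_zero.1 h5).resolve_left hwt
    have hiso : ∀ w ∈ Icc 0 ‖F t0 x - F 0 x‖, w ≠ 0 → ∀ v,
        2 * w * inner ℝ (fderiv ℝ (F 0) x v) (fderiv ℝ (xi F t0) x v) +
          w ^ 2 * inner ℝ (fderiv ℝ (xi F t0) x v) (fderiv ℝ (xi F t0) x v) = 0 := by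
      intro w hw hw0 v
      obtain ⟨t, ht, h2⟩ := h.exists_ww ht0 hx hw
      have h3 := (h.isoEq ht0 ht hx hne).expand (h.inner_fderiv_xi ht0 hx hne) (xi_unit hne) v v
      rw [h1 t ht (by rw [h2]; exact hw0), h2] at h3
      simp only [zero_apply, zero_add] at h3
      linarith
    have hD : fderiv ℝ (xi F t0) x = 0 := by
      ext1 v
      have hW : 0 < ‖F t0 x - F 0 x‖ := norm_pos_iff.2 (sub_ne_zero.2 hne)
      set W := ‖F t0 x - F 0 x‖
      have e1 := hiso W ⟨hW.le, le_rfl⟩ hW.ne' v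
      have e2 := hiso (W / 2) ⟨by linarith, by linarith⟩ (by positivity) v
      have e3 : W ^ 2 * inner ℝ (fderiv ℝ (xi F t0) x v) (fderiv ℝ (xi F t0) x v) = 0 := by
        linear_combination 2 * e1 - 4 * e2
      have e4 := (mul_eq_zero.1 e3).resolve_left (by positivity)
      exact inner_self_eq_zero.1 e4
    have h2 : (fun y => F t0 y - F 0 y) =ᶠ[𝓝 x] fun y => c • xi F t0 y := by
      filter_upwards [h.eventually_ne ht0 hx hne] with y hy
      have h3 := h.eq_add ht0 ht0 hy.1 hy.2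
      rw [ww_self, hc0 y hy.1] at h3
      rw [h3, add_sub_cancel_left]
    have hd : HasFDerivAt (xi F t0) (0 : E2 →L[ℝ] E3) x := by
      rw [← hD]
      exact ((h.cda_xi ht0 hx hne).differentiableAt (by norm_num)).hasFDerivAt
    have h3 := ((hd.const_smul c).congr_of_eventuallyEq h2).fderiv
    rw [h3, smul_zero]

end Pool.RL
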