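import Pool.Agent.Work.MP_02e829_rl.Alg

/-!
# Rectilinear trajectories: the local part
-/

open Set Filter Topology
open scoped ContDiff

set_option autoImplicit false

namespace Pool.RL

/-- a family in a chart -/
structure LocFam (U : Set E2) (F : ℝ → E2 → E3) : Prop where
  op : IsOpen U
  smooth : ∀ t ∈ Icc (0 : ℝ) 1, ContDiffOn ℝ 2 (F t) U
  imm : ∀ x ∈ U, Function.Injective (fderiv ℝ (F 0) x)
  iso : ∀ t ∈ Icc (0 : ℝ) 1, ∀ x ∈ U, ∀ v w, inner ℝ (fderiv ℝ (F t) x v) (fderiv ℝ (F t) x w) =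
    inner ℝ (fderiv ℝ (F 0) x v) (fderiv ℝ (F 0) x w)
  cont : ∀ x ∈ U, ContinuousOn (fun t => F t x) (Icc 0 1)
  cont1 : ∀ x ∈ U, ∀ v, ContinuousOn (fun t => fderiv ℝ (F t) x v) (Icc 0 1)
  rect : ∀ x ∈ U, ∃ d : E3, ∀ t ∈ Icc (0 : ℝ) 1, ∃ c : ℝ, F t x = F 0 x + c • d

/-- the direction -/
noncomputable def xi (F : ℝ → E2 → E3) (t0 : ℝ) (x : E2) : E3 :=
  (‖F t0 x - F 0 x‖)⁻¹ • (F t0 x - F 0 x)

/-- the position -/
noncomputable def ww (F : ℝ → E2 → E3) (t0 t : ℝ) (x : E2) : ℝ :=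
  inner ℝ (F t x - F 0 x) (xi F t0 x)

lemma ww_self (F : ℝ → E2 → E3) (t0 : ℝ) (x : E2) : ww F t0 t0 x = ‖F t0 x - F 0 x‖ := by
  rw [ww, xi, real_inner_smul_right, real_inner_self_eq_norm_sq]
  by_cases h : ‖F t0 x - F 0 x‖ = 0
  · rw [h]; simp
  · field_simp

lemma ww_zero (F : ℝ → E2 → E3) (t0 : ℝ) (x : E2) : ww F t0 0 x = 0 := by
  rw [ww, sub_self, inner_zero_left]

lemma xi_unit {F : ℝ → E2 → E3} {t0 : ℝ} {x : E2} (h : F t0 x ≠ F 0 x) :
    inner ℝ (xi F t0 x) (xi F t0 x) = 1 := by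
  rw [xi, real_inner_smul_left, real_inner_smul_right, real_inner_self_eq_norm_sq]
  have : ‖F t0 x - F 0 x‖ ≠ 0 := norm_ne_zero_iff.2 (sub_ne_zero.2 h)
  field_simp

variable {U : Set E2} {F : ℝ → E2 → E3}

lemma LocFam.cda (h : LocFam U F) {t : ℝ} (ht : t ∈ Icc (0 : ℝ) 1) {x : E2} (hx : x ∈ U) :
    ContDiffAt ℝ 2 (F t) x := (h.smooth t ht).contDiffAt (h.op.mem_nhds hx)

lemma zero_mem' : (0 : ℝ) ∈ Icc (0 : ℝ) 1 := ⟨le_rfl, zero_le_one⟩

lemma LocFam.cda_xi (h : LocFam U F) {t0 : ℝ} (ht0 : t0 ∈ Icc (0 : ℝ) 1) {x : E2} (hx : x ∈ U)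
    (hne : F t0 x ≠ F 0 x) : ContDiffAt ℝ 2 (xi F t0) x := by
  have h1 : ContDiffAt ℝ 2 (fun y => F t0 y - F 0 y) x := (h.cda ht0 hx).sub (h.cda zero_mem' hx)
  have h2 : F t0 x - F 0 x ≠ 0 := sub_ne_zero.2 hne
  exact ((h1.norm ℝ h2).inv (norm_ne_zero_iff.2 h2)).smul h1

lemma LocFam.cda_ww (h : LocFam U F) {t0 t : ℝ} (ht0 : t0 ∈ Icc (0 : ℝ) 1)
    (ht : t ∈ Icc (0 : ℝ) 1) {x : E2} (hx : x ∈ U)
    (hne : F t0 x ≠ F 0 x) : ContDiffAt ℝ 2 (ww F t0 t) x :=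
  ((h.cda ht hx).sub (h.cda zero_mem' hx)).inner ℝ (h.cda_xi ht0 hx hne)

lemma LocFam.eventually_ne (h : LocFam U F) {t0 : ℝ} (ht0 : t0 ∈ Icc (0 : ℝ) 1) {x : E2}
    (hx : x ∈ U) (hne : F t0 x ≠ F 0 x) : ∀ᶠ y in 𝓝 x, y ∈ U ∧ F t0 y ≠ F 0 y := by
  have h1 : ContinuousAt (fun y => F t0 y - F 0 y) x :=
    (h.cda ht0 hx).continuousAt.sub (h.cda zero_mem' hx).continuousAt
  filter_upwards [h.op.mem_nhds hx, h1.eventually_ne (sub_ne_zero.2 hne)] with y hy1 hy2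
  exact ⟨hy1, sub_ne_zero.1 hy2⟩

lemma LocFam.eq_add (h : LocFam U F) {t0 t : ℝ} (ht0 : t0 ∈ Icc (0 : ℝ) 1)
    (ht : t ∈ Icc (0 : ℝ) 1) {x : E2} (hx : x ∈ U)
    (hne : F t0 x ≠ F 0 x) : F t x = F 0 x + ww F t0 t x • xi F t0 x := by
  obtain ⟨d, hd⟩ := h.rect x hx
  obtain ⟨c0, h0⟩ := hd t0 ht0
  obtain ⟨c, hc⟩ := hd t ht
  have hc0 : c0 ≠ 0 := by
    rintro rfl
    rw [zero_smul, add_zero] at h0
    exact hne h0
  have e0 : F t0 x - F 0 x = c0 • d := by rw [h0]; abel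
  have e1 : F t x - F 0 x = (c / c0 * ‖F t0 x - F 0 x‖) • xi F t0 x := by
    have hn : ‖F t0 x - F 0 x‖ ≠ 0 := norm_ne_zero_iff.2 (sub_ne_zero.2 hne)
    rw [xi, smul_smul, mul_assoc, mul_inv_cancel₀ hn, mul_one, e0, smul_smul,
      div_mul_cancel₀ _ hc0, hc]
    abel
  have e2 : ww F t0 t x = c / c0 * ‖F t0 x - F 0 x‖ := by
    rw [ww, e1, real_inner_smul_left, xi_unit hne, mul_one]
  rw [e2, ← e1]
  abel

lemma LocFam.inner_fderiv_xi (h : LocFam U F) {t0 : ℝ} (ht0 : t0 ∈ Icc (0 : ℝ) 1) {x : E2}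
    (hx : x ∈ U) (hne : F t0 x ≠ F 0 x) (v : E2) :
    inner ℝ (fderiv ℝ (xi F t0) x v) (xi F t0 x) = 0 := by
  have h1 : DifferentiableAt ℝ (xi F t0) x := (h.cda_xi ht0 hx hne).differentiableAt (by norm_num)
  have h2 : (fun y => inner ℝ (xi F t0 y) (xi F t0 y)) =ᶠ[𝓝 x] fun _ => (1 : ℝ) := by
    filter_upwards [h.eventually_ne ht0 hx hne] with y hy using xi_unit hy.2
  have h3 : fderiv ℝ (fun y => inner ℝ (xi F t0 y) (xi F t0 y)) x = 0 := by
    rw [h2.fderiv_eq]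
    exact fderiv_const_apply (1 : ℝ)
  have h4 := fderiv_inner_apply ℝ h1 h1 v
  rw [h3, zero_apply, real_inner_comm] at h4
  linarith

lemma LocFam.fderiv_eq (h : LocFam U F) {t0 t : ℝ} (ht0 : t0 ∈ Icc (0 : ℝ) 1)
    (ht : t ∈ Icc (0 : ℝ) 1) {x : E2} (hx : x ∈ U) (hne : F t0 x ≠ F 0 x) (v : E2) :
    fderiv ℝ (F t) x v = fderiv ℝ (F 0) x v + fderiv ℝ (ww F t0 t) x v • xi F t0 x +
      ww F t0 t x • fderiv ℝ (xi F t0) x v := by
  have h1 : F t =ᶠ[𝓝 x] fun y => F 0 y + ww F t0 t y • xi F t0 y := by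
    filter_upwards [h.eventually_ne ht0 hx hne] with y hy using h.eq_add ht0 ht hy.1 hy.2
  have d1 : HasFDerivAt (xi F t0) (fderiv ℝ (xi F t0) x) x :=
    ((h.cda_xi ht0 hx hne).differentiableAt (by norm_num)).hasFDerivAt
  have d2 : HasFDerivAt (ww F t0 t) (fderiv ℝ (ww F t0 t) x) x :=
    ((h.cda_ww ht0 ht hx hne).differentiableAt (by norm_num)).hasFDerivAt
  have d3 : HasFDerivAt (F 0) (fderiv ℝ (F 0) x) x :=
    ((h.cda zero_mem' hx).differentiableAt (by norm_num)).hasFDerivAt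
  have d4 := (d3.add (d2.smul d1)).congr_of_eventuallyEq h1
  rw [d4.fderiv]
  simp only [add_apply, smul_apply, ContinuousLinearMap.smulRight_apply]
  abel

lemma LocFam.isoEq (h : LocFam U F) {t0 t : ℝ} (ht0 : t0 ∈ Icc (0 : ℝ) 1)
    (ht : t ∈ Icc (0 : ℝ) 1) {x : E2} (hx : x ∈ U) (hne : F t0 x ≠ F 0 x) :
    IsoEq (fderiv ℝ (F 0) x) (fderiv ℝ (xi F t0) x) (xi F t0 x) (ww F t0 t x)
      (fderiv ℝ (ww F t0 t) x) := by
  intro v v'
  rw [← h.fderiv_eq ht0 ht hx hne, ← h.fderiv_eq ht0 ht hx hne]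
  exact h.iso t ht x hx v v'

lemma LocFam.fderiv_ww (h : LocFam U F) {t0 t : ℝ} (ht0 : t0 ∈ Icc (0 : ℝ) 1)
    (ht : t ∈ Icc (0 : ℝ) 1) {x : E2} (hx : x ∈ U) (hne : F t0 x ≠ F 0 x) (v : E2) :
    fderiv ℝ (ww F t0 t) x v = inner ℝ (F t x - F 0 x) (fderiv ℝ (xi F t0) x v) +
      inner ℝ (fderiv ℝ (F t) x v - fderiv ℝ (F 0) x v) (xi F t0 x) := by
  have d1 : DifferentiableAt ℝ (F t) x := (h.cda ht hx).differentiableAt (by norm_num)
  have d2 : DifferentiableAt ℝ (F 0) x := (h.cda zero_mem' hx).differentiableAt (by norm_num)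
  have d3 : DifferentiableAt ℝ (xi F t0) x := (h.cda_xi ht0 hx hne).differentiableAt (by norm_num)
  have h4 := fderiv_inner_apply ℝ (d1.sub d2) d3 v
  have h5 : (fun y => inner ℝ ((F t - F 0) y) (xi F t0 y)) = ww F t0 t := rfl
  rw [h5] at h4
  rw [h4, fderiv_sub d1 d2]
  rfl

lemma LocFam.cont_fderiv_ww (h : LocFam U F) {t0 : ℝ} (ht0 : t0 ∈ Icc (0 : ℝ) 1)
    {x : E2} (hx : x ∈ U) (hne : F t0 x ≠ F 0 x) (v : E2) :
    ContinuousOn (fun t => fderiv ℝ (ww F t0 t) x v) (Icc 0 1) := by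
  have h1 : ContinuousOn (fun t => inner ℝ (F t x - F 0 x) (fderiv ℝ (xi F t0) x v) +
      inner ℝ (fderiv ℝ (F t) x v - fderiv ℝ (F 0) x v) (xi F t0 x)) (Icc 0 1) :=
    (((h.cont x hx).sub continuousOn_const).inner continuousOn_const).add
      (((h.cont1 x hx v).sub continuousOn_const).inner continuousOn_const)
  exact h1.congr fun t ht => h.fderiv_ww ht0 ht hx hne v

lemma LocFam.cont_ww (h : LocFam U F) {t0 : ℝ} {x : E2} (hx : x ∈ U) :
    ContinuousOn (fun t => ww F t0 t x) (Icc 0 1) :=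
  ((h.cont x hx).sub continuousOn_const).inner continuousOn_const

lemma LocFam.exists_ww (h : LocFam U F) {t0 : ℝ} (ht0 : t0 ∈ Icc (0 : ℝ) 1) {x : E2} (hx : x ∈ U)
    {w : ℝ} (hw : w ∈ Icc 0 ‖F t0 x - F 0 x‖) : ∃ t ∈ Icc (0 : ℝ) 1, ww F t0 t x = w := by
  have h1 : Icc 0 t0 ⊆ Icc (0 : ℝ) 1 := Icc_subset_Icc_right ht0.2
  have h2 := intermediate_value_Icc ht0.1 ((h.cont_ww (t0 := t0) hx).mono h1)
  rw [ww_zero, ww_self] at h2
  obtain ⟨t, ht, h3⟩ := h2 hw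
  exact ⟨t, h1 ht, h3⟩

lemma LocFam.fderiv_xi_ne (h : LocFam U F) {t0 : ℝ} (ht0 : t0 ∈ Icc (0 : ℝ) 1) {x : E2}
    (hx : x ∈ U) (hne : F t0 x ≠ F 0 x) (hw : fderiv ℝ (ww F t0 t0) x ≠ 0) :
    fderiv ℝ (xi F t0) x ≠ 0 := by
  intro h0
  apply hw
  have h1 : Icc 0 t0 ⊆ Icc (0 : ℝ) 1 := Icc_subset_Icc_right ht0.2
  refine alg0 (F := fderiv ℝ (F 0) x) (ξ := xi F t0 x) (w := fun t => ww F t0 t x)
    (a := fun t => fderiv ℝ (ww F t0 t) x) ht0.1 (xi_unit hne) (fun t ht => ?_) ?_ (fun v => ?_)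
  · have h2 := h.isoEq ht0 (h1 ht) hx hne
    rw [h0] at h2
    exact h2
  · have : ww F t0 0 = fun _ => (0 : ℝ) := funext fun y => ww_zero F t0 y
    simp only [this]
    exact fderiv_const_apply _
  · exact (h.cont_fderiv_ww ht0 hx hne v).mono h1

/-- the kernel of `dw` -/
lemma LocFam.kernel (h : LocFam U F) {t0 : ℝ} (ht0 : t0 ∈ Icc (0 : ℝ) 1) {x : E2}
    (hx : x ∈ U) (hne : F t0 x ≠ F 0 x) (hw : fderiv ℝ (ww F t0 t0) x ≠ 0) {v : E2}
    (hv : fderiv ℝ (ww F t0 t0) x v = 0) :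
    fderiv ℝ (xi F t0) x v = 0 ∧ inner ℝ (fderiv ℝ (F 0) x v) (xi F t0 x) = 0 ∧
      ∀ v', inner ℝ (fderiv ℝ (F 0) x v) (fderiv ℝ (xi F t0) x v') = 0 := by
  have hpos : 0 < ‖F t0 x - F 0 x‖ := norm_pos_iff.2 (sub_ne_zero.2 hne)
  obtain ⟨e, he, h1, h2, h3⟩ := alg hpos (h.inner_fderiv_xi ht0 hx hne) (xi_unit hne)
    (fun w hw => by
      obtain ⟨t, ht, h4⟩ := h.exists_ww ht0 hx hw
      have h5 := h.isoEq ht0 ht hx hne
      rw [h4] at h5
      exact ⟨_, h5⟩) (h.fderiv_xi_ne ht0 hx hne hw)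
  have h4 := (h.isoEq ht0 ht0 hx hne).apply_eq_zero (xi_unit hne) h1 h2
  obtain ⟨c, rfl⟩ := ker_line hw he h4 hv
  refine ⟨by rw [map_smul, h1, smul_zero], ?_, fun v' => ?_⟩
  · rw [map_smul, real_inner_smul_left, h2, mul_zero]
  · rw [map_smul, real_inner_smul_left, h3, mul_zero]

/-- three orthogonal vectors -/
lemma line3 {a b n z : E3} (ha : a ≠ 0) (hb : b ≠ 0) (hn : n ≠ 0) (hab : inner ℝ a b = 0)
    (han : inner ℝ n a = 0) (hbn : inner ℝ n b = 0) (hza : inner ℝ z a = 0)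
    (hzb : inner ℝ z b = 0) : z = (inner ℝ z n / inner ℝ n n) • n := by
  set z' := z - (inner ℝ z n / inner ℝ n n) • n with hz'
  have hnn : inner ℝ n n ≠ 0 := by
    intro h
    exact hn (inner_self_eq_zero.1 h)
  have h1 : inner ℝ z' a = 0 := by
    rw [hz', inner_sub_left, real_inner_smul_left, hza, han]; ring
  have h2 : inner ℝ z' b = 0 := by
    rw [hz', inner_sub_left, real_inner_smul_left, hzb, hbn]; ring
  have h3 : inner ℝ z' n = 0 := by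
    rw [hz', inner_sub_left, real_inner_smul_left]
    field_simp
    ring
  have hli : LinearIndependent ℝ ![a, b, n] := by
    refine linearIndependent_of_ne_zero_of_inner_eq_zero (𝕜 := ℝ) ?_ ?_
    · intro i
      fin_cases i
      · exact ha
      · exact hb
      · exact hn
    · intro i j hij
      have hba : inner ℝ b a = 0 := by rw [real_inner_comm]; exact hab
      have hna : inner ℝ a n = 0 := by rw [real_inner_comm]; exact han
      have hnb : inner ℝ b n = 0 := by rw [real_inner_comm]; exact hbn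
      fin_cases i <;> fin_cases j <;> first | exact absurd rfl hij | assumption
  have hspan := hli.span_eq_top_of_card_eq_finrank (by simp)
  have hz0 : z' = 0 := by
    have h4 : ∀ y ∈ Submodule.span ℝ (range ![a, b, n]), inner ℝ z' y = 0 := by
      intro y hy
      induction hy using Submodule.span_induction with
      | mem y hy =>
        obtain ⟨i, rfl⟩ := hy
        fin_cases i
        · exact h1
        · exact h2
        · exact h3
      | zero => exact inner_zero_right _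
      | add y z _ _ hy hz => rw [inner_add_right, hy, hz, add_zero]
      | smul c y _ hy => rw [real_inner_smul_right, hy, mul_zero]
    have h5 := h4 z' (by rw [hspan]; trivial)
    exact inner_self_eq_zero.1 h5
  exact sub_eq_zero.1 hz0

/-- a segment has no farthest interior point -/
lemma curve_lemma {c c' : ℝ → E3} {s0 r : ℝ} (hr : 0 < r)
    (hc : ∀ s ∈ Metric.ball s0 r, HasDerivAt c (c' s) s) {a b : E3} (ha : a ≠ 0) (hb : b ≠ 0)
    (hab : inner ℝ a b = 0) (h1 : ∀ s ∈ Metric.ball s0 r, inner ℝ (c' s) a = 0)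
    (h2 : ∀ s ∈ Metric.ball s0 r, inner ℝ (c' s) b = 0) (h3 : c' s0 ≠ 0) :
    ¬ ∀ᶠ s in 𝓝 s0, ‖c s‖ ^ 2 ≤ ‖c s0‖ ^ 2 := by
  intro hmax
  have hs0 : s0 ∈ Metric.ball s0 r := Metric.mem_ball_self hr
  have hconst : ∀ p : E3, (∀ s ∈ Metric.ball s0 r, inner ℝ (c' s) p = 0) →
      ∀ s ∈ Metric.ball s0 r, inner ℝ (c s - c s0) p = 0 := by
    intro p hp s hs
    have hd : ∀ s ∈ Metric.ball s0 r, HasDerivAt (fun s => inner ℝ (c s) p) 0 s := by
      intro s hs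
      have h4 := (hc s hs).inner ℝ (hasDerivAt_const s p)
      rw [inner_zero_right, hp s hs, zero_add] at h4
      exact h4
    have h5 := Metric.isOpen_ball.is_const_of_deriv_eq_zero
      ((convex_ball s0 r).isPreconnected) (f := fun s => inner ℝ (c s) p)
      (fun s hs => (hd s hs).differentiableAt.differentiableWithinAt)
      (fun s hs => (hd s hs).deriv) hs hs0
    rw [inner_sub_left]
    linarith
  set n := c' s0 with hn
  have hNpos : 0 < inner ℝ n n := real_inner_self_pos.2 h3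
  have hz : ∀ s ∈ Metric.ball s0 r, c s - c s0 = (inner ℝ (c s - c s0) n / inner ℝ n n) • n :=
    fun s hs => line3 ha hb h3 hab (h1 s0 hs0) (h2 s0 hs0) (hconst a h1 s hs) (hconst b h2 s hs)
  -- the derivative of the square of the norm vanishes
  have hk : HasDerivAt (fun s => ‖c s‖ ^ 2) (2 * inner ℝ (c s0) n) s0 := (hc s0 hs0).norm_sq
  have hlm : IsLocalMax (fun s => ‖c s‖ ^ 2) s0 := hmax
  have h4 : 2 * inner ℝ (c s0) n = 0 := hlm.hasDerivAt_eq_zero hk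
  have hh : HasDerivAt (fun s => inner ℝ (c s - c s0) n) (inner ℝ n n) s0 := by
    have h5 := ((hc s0 hs0).sub_const (c s0)).inner ℝ (hasDerivAt_const s0 n)
    rw [inner_zero_right, zero_add] at h5
    exact h5
  have h0 : (fun s => inner ℝ (c s - c s0) n) =ᶠ[𝓝 s0] fun _ => (0 : ℝ) := by
    filter_upwards [hmax, Metric.ball_mem_nhds s0 hr] with s hs hs2
    have e1 : ‖c s‖ ^ 2 = ‖c s0‖ ^ 2 + 2 * inner ℝ (c s0) (c s - c s0) + ‖c s - c s0‖ ^ 2 := by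
      rw [← norm_add_sq_real]
      congr 2
      abel
    have e2 : inner ℝ (c s0) (c s - c s0) = 0 := by
      rw [hz s hs2, real_inner_smul_right]
      have : inner ℝ (c s0) n = 0 := by linarith
      rw [this, mul_zero]
    have e3 : ‖c s - c s0‖ ^ 2 ≤ 0 := by rw [e2] at e1; linarith
    have e4 : ‖c s - c s0‖ = 0 := by
      have := sq_nonneg ‖c s - c s0‖
      exact pow_eq_zero_iff two_ne_zero |>.1 (le_antisymm e3 this)
    rw [norm_eq_zero.1 e4, inner_zero_left]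
  have h6 := hh.unique ((hasDerivAt_const s0 (0 : ℝ)).congr_of_eventuallyEq h0)
  exact hNpos.ne' h6

end Pool.RL
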