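import Pool.Agent.Work.MP_02e829_rl.Glob

/-!
# Rectilinear trajectories up to motions
-/

open Set Filter Manifold
open scoped Topology ContDiff Manifold

set_option autoImplicit false
set_option linter.unusedSectionVars false

universe w

namespace Pool.RL

/-- the linear part of a motion -/
noncomputable def lin (A : E3 ≃ᵢ E3) : E3 ≃ₗᵢ[ℝ] E3 := A.toRealAffineIsometryEquiv.linearIsometryEquiv

lemma lin_eq (A : E3 ≃ᵢ E3) (x y : E3) : A (x + y) = lin A x + A y := by
  have h := A.toRealAffineIsometryEquiv.map_vadd y x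
  simp only [vadd_eq_add, IsometryEquiv.coeFn_toRealAffineIsometryEquiv] at h
  exact h

lemma lin_eq_sub (A : E3 ≃ᵢ E3) (x : E3) : lin A x = A x - A 0 := by
  have h := lin_eq A x 0
  rw [add_zero] at h
  rw [h]
  abel

lemma hasFDerivAt_motion (A : E3 ≃ᵢ E3) (x : E3) :
    HasFDerivAt (fun y => A y) ((lin A).toContinuousLinearEquiv : E3 →L[ℝ] E3) x := by
  have h1 : (fun y => A y) = fun y => ((lin A).toContinuousLinearEquiv : E3 →L[ℝ] E3) y + A 0 := by
    funext y
    have h := lin_eq A y 0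
    rw [add_zero] at h
    exact h
  rw [h1]
  exact (ContinuousLinearMap.hasFDerivAt _).add_const _

lemma contDiff_motion (A : E3 ≃ᵢ E3) : ContDiff ℝ 2 (fun y => A y) := by
  have h1 : (fun y => A y) = fun y => ((lin A).toContinuousLinearEquiv : E3 →L[ℝ] E3) y + A 0 := by
    funext y
    have h := lin_eq A y 0
    rw [add_zero] at h
    exact h
  rw [h1]
  exact (ContinuousLinearMap.contDiff _).add contDiff_const

/-- a continuous family of motions applied to a continuous curve -/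
lemma cont_motion {A : ℝ → E3 ≃ᵢ E3} {K : Set ℝ} (hA : ∀ x, ContinuousOn (fun t => A t x) K)
    {c : ℝ → E3} (hc : ContinuousOn c K) : ContinuousOn (fun t => A t (c t)) K := by
  intro t0 ht0
  have h1 : Tendsto (fun t => A t (c t0)) (𝓝[K] t0) (𝓝 (A t0 (c t0))) := hA (c t0) t0 ht0
  have h2 : Tendsto c (𝓝[K] t0) (𝓝 (c t0)) := hc t0 ht0
  rw [ContinuousWithinAt, tendsto_iff_dist_tendsto_zero]
  rw [tendsto_iff_dist_tendsto_zero] at h1 h2
  have h3 := h2.add h1
  rw [add_zero] at h3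
  refine squeeze_zero (fun _ => dist_nonneg) (fun t => ?_) h3
  calc dist (A t (c t)) (A t0 (c t0)) ≤ dist (A t (c t)) (A t (c t0)) +
        dist (A t (c t0)) (A t0 (c t0)) := dist_triangle _ _ _
    _ = dist (c t) (c t0) + dist (A t (c t0)) (A t0 (c t0)) := by rw [(A t).isometry.dist_eq]

variable {S : Type w} [TopologicalSpace S] [ChartedSpace E2 S]

lemma dvec_motion {f : S → E3} (hf : ContMDiff (𝓡 2) (𝓡 3) 2 f) (A : E3 ≃ᵢ E3) (p : S) (v : E2) :
    FRD.dvec (fun q => A (f q)) p v = lin A (FRD.dvec f p v) := by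
  have h4 : MDifferentiableAt (𝓡 2) (𝓡 3) f p := (hf _).mdifferentiableAt (by norm_num)
  have h1 : HasMFDerivAt (𝓡 3) (𝓡 3) (fun y : E3 => A y) (f p)
      ((lin A).toContinuousLinearEquiv : E3 →L[ℝ] E3) :=
    (hasFDerivAt_motion A (f p)).hasMFDerivAt
  have h2 := (h1.comp p h4.hasMFDerivAt).mfderiv
  have h3 : FRD.dvec (fun q => A (f q)) p v =
      (mfderiv (𝓡 2) (𝓡 3) ((fun y : E3 => A y) ∘ f) p : E2 →L[ℝ] E3) v := rfl
  rw [h3, h2]
  rfl

lemma firstForm_motion {f : S → E3} (hf : ContMDiff (𝓡 2) (𝓡 3) 2 f) (A : E3 ≃ᵢ E3) (p : S)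
    (v w : E2) : FRD.firstForm (fun q => A (f q)) p v w = FRD.firstForm f p v w := by
  rw [FRD.firstForm, FRD.firstForm, dvec_motion hf, dvec_motion hf, LinearIsometryEquiv.inner_map_map]

/-- the family after the motions -/
theorem rect_motion {f : ℝ → S → E3} {A : ℝ → E3 ≃ᵢ E3}
    (smooth : ∀ t ∈ Icc (0 : ℝ) 1, ContMDiff (𝓡 2) (𝓡 3) 2 (f t))
    (imm : ∀ p, Function.Injective (FRD.dvec (f 0) p))
    (iso : ∀ t ∈ Icc (0 : ℝ) 1, FRD.firstForm (f t) = FRD.firstForm (f 0))
    (cont : ∀ p, ContinuousOn (fun t => f t p) (Icc 0 1))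
    (cont1 : ∀ p v, ContinuousOn (fun t => FRD.dvec (f t) p v) (Icc 0 1))
    (contA : ∀ x, ContinuousOn (fun t => A t x) (Icc 0 1))
    (col : ∀ p, Collinear ℝ ((fun t => A t (f t p)) '' Icc 0 1)) :
    Rect (fun t p => A t (f t p)) where
  smooth := fun t ht => (contDiff_motion (A t)).contMDiff.comp (smooth t ht)
  imm := fun p => by
    have h1 : FRD.dvec (fun q => A 0 (f 0 q)) p = lin (A 0) ∘ FRD.dvec (f 0) p :=
      funext fun v => dvec_motion (smooth 0 zero_mem') (A 0) p v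
    rw [h1]
    exact (lin (A 0)).injective.comp (imm p)
  iso := fun t ht p v w => by
    rw [firstForm_motion (smooth t ht), firstForm_motion (smooth 0 zero_mem'), iso t ht]
  cont := fun p => cont_motion contA (cont p)
  cont1 := fun p v => by
    have h1 : ContinuousOn (fun t => A t (FRD.dvec (f t) p v) - A t 0) (Icc 0 1) :=
      (cont_motion contA (cont1 p v)).sub (contA 0)
    exact h1.congr fun t ht => (dvec_motion (smooth t ht) (A t) p v).trans (lin_eq_sub _ _)
  rect := fun p => by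
    have h0 : A 0 (f 0 p) ∈ (fun t => A t (f t p)) '' Icc 0 1 := ⟨0, zero_mem', rfl⟩
    obtain ⟨d, hd⟩ := (collinear_iff_of_mem h0).1 (col p)
    refine ⟨d, fun t ht => ?_⟩
    obtain ⟨c, hc⟩ := hd _ ⟨t, ht, rfl⟩
    refine ⟨c, ?_⟩
    simp only [vadd_eq_add] at hc
    rw [hc, add_comm]

end Pool.RL
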